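import Pool.Agent.Helper88.TL.Place
import Pool.Agent.Helper29.TG.Defs

/-!
# Extension of the absolute values of a number field to its algebraic closure
-/

set_option autoImplicit false

namespace Pool.Agent.Helper88.ZN

open NumberField Height AdmissibleAbsValues IsDedekindDomain Pool.Agent.Helper85.Sub
  Pool.Agent.Helper33.SS Pool.Agent.Helper29.TG

/-- An absolute value of a field, given by an embedding in a normed field and an exponent. -/
noncomputable def powAbs {E Ω : Type} [Field E] [NormedField Ω] (τ : E →+* Ω) (n : ℕ) (hn : n ≠ 0)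
    (hΩ : ∀ x y : Ω, ‖x + y‖ ≤ max ‖x‖ ‖y‖) : AbsoluteValue E ℝ where
  toFun z := ‖τ z‖ ^ n
  map_mul' x y := by rw [map_mul, norm_mul, mul_pow]
  nonneg' x := by positivity
  eq_zero' x := by
    constructor
    · intro h
      have h1 := (pow_eq_zero_iff hn).1 h
      rw [norm_eq_zero] at h1
      exact (map_eq_zero τ).1 h1
    · intro h
      rw [h, map_zero, norm_zero, zero_pow hn]
  add_le' x y := by
    rw [map_add]
    have h1 : ‖τ x + τ y‖ ^ n ≤ (max ‖τ x‖ ‖τ y‖) ^ n :=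
      pow_le_pow_left₀ (norm_nonneg _) (hΩ _ _) n
    refine h1.trans ?_
    rcases le_total ‖τ x‖ ‖τ y‖ with h | h
    · rw [max_eq_right h]
      exact le_add_of_nonneg_left (by positivity)
    · rw [max_eq_left h]
      exact le_add_of_nonneg_right (by positivity)

theorem powAbs_na {E Ω : Type} [Field E] [NormedField Ω] (τ : E →+* Ω) (n : ℕ) (hn : n ≠ 0)
    (hΩ : ∀ x y : Ω, ‖x + y‖ ≤ max ‖x‖ ‖y‖) : IsNonarchimedean (powAbs τ n hn hΩ) := by
  intro x y
  change ‖τ (x + y)‖ ^ n ≤ max (‖τ x‖ ^ n) (‖τ y‖ ^ n)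
  rw [map_add]
  refine (pow_le_pow_left₀ (norm_nonneg _) (hΩ _ _) n).trans ?_
  rcases le_total ‖τ x‖ ‖τ y‖ with h | h
  · rw [max_eq_right h]
    exact le_max_right _ _
  · rw [max_eq_left h]
    exact le_max_left _ _

variable {K : Type} [Field K] [NumberField K]

theorem exists_ext_nonarch {v : AbsoluteValue K ℝ} (hv : v ∈ nonarchAbsVal (K := K)) :
    ∃ w : AbsoluteValue (AlgebraicClosure K) ℝ, IsNonarchimedean w ∧
      ∀ a : K, w (algebraMap K (AlgebraicClosure K) a) = v a := by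
  have hv' : IsFinitePlace v := hv
  set w : FinitePlace K := ⟨v, hv'⟩ with hw
  set P := w.maximalIdeal with hPdef
  have hwP : FinitePlace.mk P = w := FinitePlace.mk_maximalIdeal w
  obtain ⟨p, hp, hpP⟩ := exists_prime_mem P
  have hpf : Fact p.Prime := ⟨hp⟩
  obtain ⟨n, hn0, ⟨σ₀, hσ₀⟩, -, hall⟩ := card_fiber (p := p) P hpP
  have hvσ : ∀ x : K, v x = ‖σ₀ x‖ ^ n := by
    intro x
    have h1 := hall σ₀ hσ₀ x
    rw [hwP] at h1
    exact h1
  let _ : Algebra K (PadicAlgCl p) := σ₀.toAlgebra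
  let τ : AlgebraicClosure K →ₐ[K] PadicAlgCl p := IsAlgClosed.lift
  have hna : ∀ x y : PadicAlgCl p, ‖x + y‖ ≤ max ‖x‖ ‖y‖ := PadicAlgCl.isNonarchimedean p
  refine ⟨powAbs τ.toRingHom n hn0 hna, powAbs_na _ _ _ _, fun a => ?_⟩
  change ‖τ (algebraMap K _ a)‖ ^ n = v a
  rw [τ.commutes, hvσ]
  rfl

theorem exists_ext_arch {v : AbsoluteValue K ℝ} (hv : v ∈ archAbsVal (K := K)) :
    ∃ w : AbsoluteValue (AlgebraicClosure K) ℝ,
      ∀ a : K, w (algebraMap K (AlgebraicClosure K) a) = v a := by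
  have hv' : v ∈ multisetInfinitePlace K := hv
  rw [mem_multisetInfinitePlace] at hv'
  obtain ⟨φ, hφ⟩ := hv'
  let _ : Algebra K ℂ := φ.toAlgebra
  let τ : AlgebraicClosure K →ₐ[K] ℂ := IsAlgClosed.lift
  refine ⟨NumberField.place τ.toRingHom, fun a => ?_⟩
  change ‖τ (algebraMap K _ a)‖ = v a
  rw [τ.commutes, ← hφ]
  rfl

/-- A choice of extensions of the absolute values to the algebraic closure. -/
structure Ext (K : Type) [Field K] [AdmissibleAbsValues K] where
  /-- the extension -/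
  W : AbsoluteValue K ℝ → AbsoluteValue (AlgebraicClosure K) ℝ
  ext : ∀ v, Mem v → ∀ a : K, W v (algebraMap K (AlgebraicClosure K) a) = v a
  na : ∀ v ∈ nonarchAbsVal (K := K), IsNonarchimedean (W v)

theorem exists_ext : Nonempty (Ext K) := by
  classical
  have h : ∀ v : AbsoluteValue K ℝ, ∃ w : AbsoluteValue (AlgebraicClosure K) ℝ,
      (Mem v → ∀ a : K, w (algebraMap K (AlgebraicClosure K) a) = v a) ∧
      (v ∈ nonarchAbsVal (K := K) → IsNonarchimedean w) := by
    intro v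
    by_cases h1 : v ∈ nonarchAbsVal (K := K)
    · obtain ⟨w, hw1, hw2⟩ := exists_ext_nonarch h1
      exact ⟨w, fun _ => hw2, fun _ => hw1⟩
    · by_cases h2 : v ∈ archAbsVal (K := K)
      · obtain ⟨w, hw⟩ := exists_ext_arch h2
        exact ⟨w, fun _ => hw, fun h3 => absurd h3 h1⟩
      · exact ⟨AbsoluteValue.trivial, fun h3 => absurd h3 (by
          rintro (h3 | h3)
          · exact h2 h3
          · exact h1 h3), fun h3 => absurd h3 h1⟩
  choose W hW1 hW2 using h
  exact ⟨⟨W, fun v => hW1 v, fun v => hW2 v⟩⟩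

end Pool.Agent.Helper88.ZN
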