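import Pool.Agent.Helper88.ZN.Ht

/-!
# Norms of polynomials
-/

set_option autoImplicit false

namespace Pool.Agent.Helper88.ZN

open Height AdmissibleAbsValues Pool.Agent.Helper29.TG MvPolynomial

section Norm

variable {L : Type} [Field L] {ι : Type}

/-- The sum norm. -/
noncomputable def n1 (w : AbsoluteValue L ℝ) (g : MvPolynomial ι L) : ℝ :=
  ∑ m ∈ g.support, w (g.coeff m)

/-- The maximum norm. -/
noncomputable def nx (w : AbsoluteValue L ℝ) (g : MvPolynomial ι L) : ℝ :=
  ⨆ m : g.support, w (g.coeff m)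

theorem n1_nonneg (w : AbsoluteValue L ℝ) (g : MvPolynomial ι L) : 0 ≤ n1 w g :=
  Finset.sum_nonneg fun _ _ => w.nonneg _

theorem nx_nonneg (w : AbsoluteValue L ℝ) (g : MvPolynomial ι L) : 0 ≤ nx w g :=
  Real.iSup_nonneg fun _ => w.nonneg _

theorem n1_eq_sum (w : AbsoluteValue L ℝ) (g : MvPolynomial ι L) {s : Finset (ι →₀ ℕ)}
    (hs : g.support ⊆ s) : n1 w g = ∑ m ∈ s, w (g.coeff m) := by
  refine Finset.sum_subset hs fun m _ hm => ?_
  rw [notMem_support_iff.1 hm, map_zero]

theorem coeff_le_nx (w : AbsoluteValue L ℝ) (g : MvPolynomial ι L) (m : ι →₀ ℕ) :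
    w (g.coeff m) ≤ nx w g := by
  by_cases hm : m ∈ g.support
  · exact le_ciSup (f := fun m : g.support => w (g.coeff m)) (Set.finite_range _).bddAbove
      (⟨m, hm⟩ : g.support)
  · rw [notMem_support_iff.1 hm, map_zero]
    exact nx_nonneg w g

theorem nx_le {w : AbsoluteValue L ℝ} {g : MvPolynomial ι L} {c : ℝ} (hc : 0 ≤ c)
    (h : ∀ m, w (g.coeff m) ≤ c) : nx w g ≤ c :=
  Real.iSup_le (fun m => h m) hc

theorem n1_add (w : AbsoluteValue L ℝ) (f g : MvPolynomial ι L) :
    n1 w (f + g) ≤ n1 w f + n1 w g := by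
  classical
  rw [n1_eq_sum w (f + g) (s := f.support ∪ g.support) support_add,
    n1_eq_sum w f (s := f.support ∪ g.support) Finset.subset_union_left,
    n1_eq_sum w g (s := f.support ∪ g.support) Finset.subset_union_right,
    ← Finset.sum_add_distrib]
  refine Finset.sum_le_sum fun m _ => ?_
  rw [coeff_add]
  exact w.add_le _ _

theorem n1_sum (w : AbsoluteValue L ℝ) {α : Type*} (s : Finset α) (f : α → MvPolynomial ι L) :
    n1 w (∑ a ∈ s, f a) ≤ ∑ a ∈ s, n1 w (f a) := by
  classical
  induction s using Finset.induction_on with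
  | empty => simp [n1]
  | insert a s ha ih =>
    rw [Finset.sum_insert ha, Finset.sum_insert ha]
    exact (n1_add w _ _).trans (add_le_add le_rfl ih)

theorem n1_monomial (w : AbsoluteValue L ℝ) (m : ι →₀ ℕ) (c : L) :
    n1 w (monomial m c) = w c := by
  classical
  rw [n1_eq_sum w _ (s := {m}) support_monomial_subset, Finset.sum_singleton, coeff_monomial,
    if_pos rfl]

theorem n1_monomial_mul (w : AbsoluteValue L ℝ) (m : ι →₀ ℕ) (c : L) (g : MvPolynomial ι L) :
    n1 w (monomial m c * g) ≤ w c * n1 w g := by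
  classical
  have h1 : monomial m c * g = ∑ m' ∈ g.support, monomial (m + m') (c * g.coeff m') := by
    conv_lhs => rw [g.as_sum]
    rw [Finset.mul_sum]
    refine Finset.sum_congr rfl fun m' _ => ?_
    rw [monomial_mul]
  rw [h1]
  refine (n1_sum w _ _).trans ?_
  unfold n1
  rw [Finset.mul_sum]
  refine Finset.sum_le_sum fun m' _ => ?_
  have h2 := n1_monomial w (m + m') (c * g.coeff m')
  unfold n1 at h2
  rw [h2, map_mul]

theorem n1_mul (w : AbsoluteValue L ℝ) (f g : MvPolynomial ι L) :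
    n1 w (f * g) ≤ n1 w f * n1 w g := by
  classical
  have h1 : f * g = ∑ m ∈ f.support, monomial m (f.coeff m) * g := by
    conv_lhs => rw [f.as_sum]
    rw [Finset.sum_mul]
  rw [h1]
  refine (n1_sum w _ _).trans ?_
  conv_rhs => unfold n1
  rw [Finset.sum_mul]
  exact Finset.sum_le_sum fun m _ => n1_monomial_mul w m _ g

theorem sum_le_of_na {w : AbsoluteValue L ℝ} (hw : IsNonarchimedean w) {α : Type*}
    (s : Finset α) (f : α → L) {c : ℝ} (hc : 0 ≤ c) (h : ∀ a ∈ s, w (f a) ≤ c) :
    w (∑ a ∈ s, f a) ≤ c := by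
  classical
  induction s using Finset.induction_on with
  | empty => rwa [Finset.sum_empty, map_zero]
  | insert a s ha ih =>
    rw [Finset.sum_insert ha]
    exact (hw _ _).trans (max_le (h a (Finset.mem_insert_self a s))
      (ih fun b hb => h b (Finset.mem_insert_of_mem hb)))

theorem nx_mul {w : AbsoluteValue L ℝ} (hw : IsNonarchimedean w) (f g : MvPolynomial ι L) :
    nx w (f * g) ≤ nx w f * nx w g := by
  classical
  refine nx_le (mul_nonneg (nx_nonneg w f) (nx_nonneg w g)) fun m => ?_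
  rw [coeff_mul]
  refine sum_le_of_na hw _ _ (mul_nonneg (nx_nonneg w f) (nx_nonneg w g)) fun q _ => ?_
  rw [map_mul]
  exact mul_le_mul (coeff_le_nx w f _) (coeff_le_nx w g _) (w.nonneg _) (nx_nonneg w f)

end Norm

variable {K : Type} [Field K] [AdmissibleAbsValues K] {ι : Type}

open Classical in
/-- The norm of the coefficients: the maximum norm at the nonarchimedean absolute values of the
family, the sum norm at the others. -/
noncomputable def cn (v : AbsoluteValue K ℝ) (g : MvPolynomial ι K) : ℝ :=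
  if v ∈ nonarchAbsVal (K := K) then nx v g else n1 v g

theorem cn_nonneg (v : AbsoluteValue K ℝ) (g : MvPolynomial ι K) : 0 ≤ cn v g := by
  unfold cn
  split_ifs
  · exact nx_nonneg v g
  · exact n1_nonneg v g

theorem cn_na {v : AbsoluteValue K ℝ} (hv : v ∈ nonarchAbsVal (K := K)) (g : MvPolynomial ι K) :
    cn v g = nx v g := if_pos hv

theorem cn_arch {v : AbsoluteValue K ℝ} (hv : v ∉ nonarchAbsVal (K := K))
    (g : MvPolynomial ι K) : cn v g = n1 v g := if_neg hv

theorem cn_mul (v : AbsoluteValue K ℝ) (f g : MvPolynomial ι K) :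
    cn v (f * g) ≤ cn v f * cn v g := by
  unfold cn
  split_ifs with h
  · exact nx_mul (AdmissibleAbsValues.isNonarchimedean v h) f g
  · exact n1_mul v f g

theorem cn_monomial (v : AbsoluteValue K ℝ) (m : ι →₀ ℕ) (c : K) :
    cn v (monomial m c) ≤ v c := by
  classical
  unfold cn
  split_ifs with h
  · refine nx_le (v.nonneg _) fun m' => ?_
    rw [coeff_monomial]
    split_ifs
    · exact le_rfl
    · rw [map_zero]
      exact v.nonneg _
  · exact (n1_monomial v m c).le

/-- The logarithmic norm of the coefficients. -/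
noncomputable def lc (v : AbsoluteValue K ℝ) (g : MvPolynomial ι K) : ℝ := Real.posLog (cn v g)

theorem lc_nonneg (v : AbsoluteValue K ℝ) (g : MvPolynomial ι K) : 0 ≤ lc v g :=
  Real.posLog_nonneg

theorem cn_le_exp (v : AbsoluteValue K ℝ) (g : MvPolynomial ι K) :
    cn v g ≤ Real.exp (lc v g) := by
  rcases (cn_nonneg v g).eq_or_lt with h | h
  · rw [← h]
    positivity
  · calc cn v g = Real.exp (Real.log (cn v g)) := (Real.exp_log h).symm
      _ ≤ _ := Real.exp_le_exp.2 (le_max_right _ _)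

theorem lc_le_of_le {v : AbsoluteValue K ℝ} {g : MvPolynomial ι K} {c : ℝ} (hc : 0 ≤ c)
    (h : cn v g ≤ Real.exp c) : lc v g ≤ c := by
  unfold lc
  refine max_le hc ?_
  rcases (cn_nonneg v g).eq_or_lt with h0 | h0
  · rw [← h0, Real.log_zero]
    exact hc
  · rw [← Real.log_exp c]
    exact Real.log_le_log h0 h

theorem lc_mul (v : AbsoluteValue K ℝ) (f g : MvPolynomial ι K) :
    lc v (f * g) ≤ lc v f + lc v g := by
  refine lc_le_of_le (add_nonneg (lc_nonneg v f) (lc_nonneg v g)) ?_
  rw [Real.exp_add]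
  exact (cn_mul v f g).trans (mul_le_mul (cn_le_exp v f) (cn_le_exp v g) (cn_nonneg v g)
    (Real.exp_pos _).le)

theorem lc_one (v : AbsoluteValue K ℝ) : lc v (1 : MvPolynomial ι K) = 0 := by
  refine le_antisymm (lc_le_of_le le_rfl ?_) (lc_nonneg v _)
  rw [Real.exp_zero]
  have h := cn_monomial v (0 : ι →₀ ℕ) (1 : K)
  rw [v.map_one] at h
  exact h

theorem lc_pow (v : AbsoluteValue K ℝ) (f : MvPolynomial ι K) (n : ℕ) :
    lc v (f ^ n) ≤ n * lc v f := by
  induction n with
  | zero => rw [pow_zero, lc_one, Nat.cast_zero, zero_mul]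
  | succ n ih =>
    rw [pow_succ]
    refine (lc_mul v _ _).trans ?_
    push_cast
    linarith

theorem lc_X (v : AbsoluteValue K ℝ) (i : ι) : lc v (X i : MvPolynomial ι K) = 0 := by
  refine le_antisymm (lc_le_of_le le_rfl ?_) (lc_nonneg v _)
  rw [Real.exp_zero]
  have h := cn_monomial v (Finsupp.single i 1 : ι →₀ ℕ) (1 : K)
  rw [v.map_one] at h
  exact h

theorem lc_X_pow (v : AbsoluteValue K ℝ) (i : ι) (n : ℕ) :
    lc v ((X i : MvPolynomial ι K) ^ n) = 0 := by
  refine le_antisymm ?_ (lc_nonneg v _)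
  refine (lc_pow v _ n).trans ?_
  rw [lc_X, mul_zero]

/-- Almost all logarithmic norms are zero. -/
theorem FS_lc (g : MvPolynomial ι K) : FS (fun v : AbsoluteValue K ℝ => lc v g) := by
  classical
  have h1 : ∀ m : ι →₀ ℕ, ∃ B : Set (AbsoluteValue K ℝ), B.Finite ∧
      ∀ v ∈ nonarchAbsVal (K := K), v ∉ B → v (g.coeff m) ≤ 1 := by
    intro m
    by_cases hi : g.coeff m = 0
    · refine ⟨∅, Set.finite_empty, fun v _ _ => ?_⟩
      rw [hi, map_zero]
      exact zero_le_one
    · obtain ⟨B, hB, h⟩ := (FS_log (K := K) hi).exists_finite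
      refine ⟨B, hB, fun v hv hvB => ?_⟩
      have h2 := h v hv hvB
      have h3 : 0 < v (g.coeff m) := v.pos hi
      rcases Real.log_eq_zero.1 h2 with h4 | h4 | h4
      · exact absurd h4 h3.ne'
      · exact h4.le
      · linarith
  choose B hB h using h1
  refine FS.of_finite (B := ⋃ m ∈ g.support, B m) (Set.Finite.biUnion (Finset.finite_toSet _)
    fun i _ => hB i) fun v hv hvB => ?_
  refine le_antisymm (lc_le_of_le le_rfl ?_) (lc_nonneg v _)
  rw [Real.exp_zero, cn_na hv]
  refine nx_le zero_le_one fun m => ?_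
  by_cases hm : m ∈ g.support
  · exact h m v hv fun h3 => hvB (Set.mem_biUnion hm h3)
  · rw [notMem_support_iff.1 hm, map_zero]
    exact zero_le_one

/-- The value of a form at a point of the algebraic closure. -/
theorem W_eval_le [Finite ι] (E : Ext K) {v : AbsoluteValue K ℝ} (hv : Mem v)
    {g : MvPolynomial ι K} {m : ℕ} (hg : g.IsHomogeneous m) (u : ι → AlgebraicClosure K) :
    E.W v (aeval u g) ≤ cn v g * nm (E.W v) u ^ m := by
  classical
  have hmon : ∀ s ∈ g.support, E.W v (algebraMap K (AlgebraicClosure K) (g.coeff s) *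
      ∏ i ∈ s.support, u i ^ s i) ≤ v (g.coeff s) * nm (E.W v) u ^ m := by
    intro s hs
    rw [map_mul, E.ext v hv, map_prod]
    refine mul_le_mul_of_nonneg_left ?_ (v.nonneg _)
    rw [hg.degree_eq_sum_deg_support hs, ← Finset.prod_pow_eq_pow_sum]
    refine Finset.prod_le_prod (fun _ _ => (E.W v).nonneg _) fun i _ => ?_
    rw [map_pow]
    exact pow_le_pow_left₀ ((E.W v).nonneg _) (le_nm _ u i) _
  rw [aeval_def, eval₂_eq]
  unfold cn
  split_ifs with h
  · refine sum_le_of_na (E.na v h) _ _ (mul_nonneg (nx_nonneg v g)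
      (pow_nonneg (nm_nonneg _ _) _)) fun s hs => (hmon s hs).trans ?_
    exact mul_le_mul_of_nonneg_right (coeff_le_nx v g s) (pow_nonneg (nm_nonneg _ _) _)
  · refine ((E.W v).sum_le _ _).trans ?_
    unfold n1
    rw [Finset.sum_mul]
    exact Finset.sum_le_sum hmon

end Pool.Agent.Helper88.ZN
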