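import Pool.Agent.Helper88.ZN.Cn

/-!
# The product formula for the evaluation determinant
-/

set_option autoImplicit false

namespace Pool.Agent.Helper88.ZN

open Height AdmissibleAbsValues Pool.Agent.Helper29.TG MvPolynomial

section Det

variable {L : Type} [Field L] {κ : Type} [Fintype κ] [DecidableEq κ]

/-- The determinant bound for absolute values. -/
theorem det_le (w : AbsoluteValue L ℝ) (A : Matrix κ κ L) (r c : κ → ℝ)
    (h : ∀ i j, w (A i j) ≤ r i * c j) :
    w A.det ≤ (Fintype.card κ).factorial * ((∏ i, r i) * ∏ j, c j) := by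
  rw [Matrix.det_apply]
  refine (w.sum_le _ _).trans ?_
  have h1 : ∀ σ : Equiv.Perm κ, w (Equiv.Perm.sign σ • ∏ i, A (σ i) i) ≤
      (∏ i, r i) * ∏ j, c j := by
    intro σ
    have h2 : w (Equiv.Perm.sign σ • ∏ i, A (σ i) i) = w (∏ i, A (σ i) i) := by
      rcases Int.units_eq_one_or (Equiv.Perm.sign σ) with h3 | h3
      · rw [h3, one_smul]
      · rw [h3, Units.neg_smul, one_smul, map_neg_eq_map]
    rw [h2, map_prod]
    calc ∏ i, w (A (σ i) i) ≤ ∏ i, (r (σ i) * c i) :=
          Finset.prod_le_prod (fun _ _ => w.nonneg _) fun i _ => h _ _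
      _ = (∏ i, r i) * ∏ j, c j := by
        rw [Finset.prod_mul_distrib, Equiv.prod_comp σ r]
  refine (Finset.sum_le_sum fun σ _ => h1 σ).trans ?_
  rw [Finset.sum_const, Finset.card_univ, Fintype.card_perm, nsmul_eq_mul]

/-- The determinant bound for nonarchimedean absolute values. -/
theorem det_le_na {w : AbsoluteValue L ℝ} (hw : IsNonarchimedean w) (A : Matrix κ κ L)
    (r c : κ → ℝ) (hr : ∀ i, 0 ≤ r i) (hc : ∀ i, 0 ≤ c i) (h : ∀ i j, w (A i j) ≤ r i * c j) :
    w A.det ≤ (∏ i, r i) * ∏ j, c j := by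
  rw [Matrix.det_apply]
  refine sum_le_of_na hw _ _ (mul_nonneg (Finset.prod_nonneg fun i _ => hr i)
    (Finset.prod_nonneg fun i _ => hc i)) fun σ _ => ?_
  have h2 : w (Equiv.Perm.sign σ • ∏ i, A (σ i) i) = w (∏ i, A (σ i) i) := by
    rcases Int.units_eq_one_or (Equiv.Perm.sign σ) with h3 | h3
    · rw [h3, one_smul]
    · rw [h3, Units.neg_smul, one_smul, map_neg_eq_map]
  rw [h2, map_prod]
  calc ∏ i, w (A (σ i) i) ≤ ∏ i, (r (σ i) * c i) :=
        Finset.prod_le_prod (fun _ _ => w.nonneg _) fun i _ => h _ _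
    _ = (∏ i, r i) * ∏ j, c j := by
      rw [Finset.prod_mul_distrib, Equiv.prod_comp σ r]

end Det

variable {K : Type} [Field K] [AdmissibleAbsValues K] {ι : Type} [Finite ι]

open Classical in
/-- Zero at the nonarchimedean absolute values of the family, one at the others. -/
noncomputable def eps (v : AbsoluteValue K ℝ) : ℝ :=
  if v ∈ nonarchAbsVal (K := K) then 0 else 1

theorem FS_eps : FS (eps (K := K)) :=
  FS.of_finite Set.finite_empty fun _ hv _ => if_pos hv

theorem ls_eps_le : ls (eps (K := K)) ≤ totalWeight K := by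
  unfold ls
  have h1 : ∑ᶠ v : nonarchAbsVal (K := K), eps v.val = 0 := by
    have h0 : (fun v : nonarchAbsVal (K := K) => eps v.val) = fun _ => (0 : ℝ) :=
      funext fun v => if_pos v.2
    rw [h0, finsum_zero]
  rw [h1, add_zero]
  have h2 := Multiset.sum_map_le_sum_map (s := archAbsVal (K := K)) (eps (K := K))
    (fun _ => (1 : ℝ)) fun v _ => by
      unfold eps
      split_ifs
      · exact zero_le_one
      · exact le_rfl
  refine h2.trans ?_
  rw [Multiset.map_const', Multiset.sum_replicate, nsmul_eq_mul, mul_one]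
  exact le_rfl

/-- The local bound of an evaluation determinant. -/
theorem det_bound (E : Ext K) {v : AbsoluteValue K ℝ} (hv : Mem v) {κ : Type} [Fintype κ]
    [DecidableEq κ] {m : ℕ} (g : κ → MvPolynomial ι K) (hg : ∀ k, (g k).IsHomogeneous m)
    (u : κ → ι → AlgebraicClosure K) (hu : ∀ k, u k ≠ 0)
    (hdet : (Matrix.of fun i k => aeval (u i) (g k)).det ≠ 0) :
    Real.log (E.W v (Matrix.of fun i k => aeval (u i) (g k)).det) ≤
      m * (∑ i, Real.log (nm (E.W v) (u i))) + (∑ k, lc v (g k)) +
        eps v * Real.log ((Fintype.card κ).factorial : ℝ) := by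
  have hpos : 0 < E.W v (Matrix.of fun i k => aeval (u i) (g k)).det := (E.W v).pos hdet
  have hent : ∀ i k, E.W v ((Matrix.of fun i k => aeval (u i) (g k)) i k) ≤
      nm (E.W v) (u i) ^ m * Real.exp (lc v (g k)) := by
    intro i k
    rw [Matrix.of_apply, mul_comm]
    exact (W_eval_le E hv (hg k) (u i)).trans (mul_le_mul_of_nonneg_right (cn_le_exp v (g k))
      (pow_nonneg (nm_nonneg _ _) _))
  have hr : ∀ i, 0 ≤ nm (E.W v) (u i) ^ m := fun i => pow_nonneg (nm_nonneg _ _) _
  have hc : ∀ k, 0 ≤ Real.exp (lc v (g k)) := fun k => (Real.exp_pos _).le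
  have hprodpos : 0 < (∏ i, nm (E.W v) (u i) ^ m) * ∏ k, Real.exp (lc v (g k)) :=
    mul_pos (Finset.prod_pos fun i _ => pow_pos (nm_pos _ (hu i)) _)
      (Finset.prod_pos fun k _ => Real.exp_pos _)
  have hlog : Real.log ((∏ i, nm (E.W v) (u i) ^ m) * ∏ k, Real.exp (lc v (g k))) =
      m * (∑ i, Real.log (nm (E.W v) (u i))) + ∑ k, lc v (g k) := by
    rw [Real.log_mul (Finset.prod_pos fun i _ => pow_pos (nm_pos _ (hu i)) _).ne'
      (Finset.prod_pos fun k _ => Real.exp_pos _).ne', Real.log_prod, Real.log_prod]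
    · simp only [Real.log_pow, Real.log_exp]
      rw [Finset.mul_sum]
    · exact fun k _ => (Real.exp_pos _).ne'
    · exact fun i _ => (pow_pos (nm_pos _ (hu i)) _).ne'
  by_cases h : v ∈ nonarchAbsVal (K := K)
  · have h1 := det_le_na (E.na v h) _ _ _ hr hc hent
    have h2 := Real.log_le_log hpos h1
    rw [hlog] at h2
    unfold eps
    rw [if_pos h]
    linarith
  · have h1 := det_le (E.W v) _ _ _ hent
    have h2 := Real.log_le_log hpos h1
    have hf : ((Fintype.card κ).factorial : ℝ) ≠ 0 := by positivity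
    rw [Real.log_mul hf hprodpos.ne', hlog] at h2
    unfold eps
    rw [if_neg h]
    linarith

variable {M : Type} [Field M] [Algebra K M] [FiniteDimensional K M]

/-- **The product formula for the evaluation determinant.** -/
theorem level [CharZero K] (E : Ext K) {κ : Type} [Fintype κ] [DecidableEq κ] {m : ℕ}
    (J : Ideal (MvPolynomial ι K)) (g : κ → MvPolynomial ι K) (P : κ → ι → M)
    (hP : ∀ k, P k ≠ 0) (hJ : ∀ k, ∀ q ∈ J, aeval (P k) q = 0)
    (hdet : (Matrix.of fun i k => aeval (P i) (g k)).det ≠ 0)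
    (a b : AbsoluteValue K ℝ → ℝ) (ha : FS a) (hb : FS b)
    (hv : ∀ v, Mem v → ∃ (g' : κ → MvPolynomial ι K) (T : Matrix κ κ K),
      (∀ k, (g' k).IsHomogeneous m) ∧ (∀ k, g' k - ∑ k', C (T k k') * g k' ∈ J) ∧
      T.det ≠ 0 ∧ Real.log (v T.det) = a v ∧ ∑ k, lc v (g' k) ≤ b v) :
    Module.finrank K M * ls a ≤ m * (∑ k, hM E (P k)) +
      Module.finrank K M * (ls b + totalWeight K * Real.log ((Fintype.card κ).factorial : ℝ)) := by
  classical
  set Δ : M := (Matrix.of fun i k => aeval (P i) (g k)).det with hΔ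
  have hf : 0 ≤ Real.log ((Fintype.card κ).factorial : ℝ) :=
    Real.log_nonneg (by exact_mod_cast Nat.one_le_iff_ne_zero.2 (Nat.factorial_ne_zero _))
  -- the local inequality
  have hloc : ∀ v : AbsoluteValue K ℝ, Mem v →
      (∑ σ : M →ₐ[K] AlgebraicClosure K, Real.log (E.W v (σ Δ))) + Module.finrank K M * a v ≤
        m * (∑ k, lh E v (P k)) + Module.finrank K M * b v +
          Module.finrank K M * (eps v * Real.log ((Fintype.card κ).factorial : ℝ)) := by
    intro v hvm
    obtain ⟨g', T, hg', hT, hT0, hTa, hgb⟩ := hv v hvm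
    have h1 : ∀ σ : M →ₐ[K] AlgebraicClosure K,
        Real.log (E.W v (σ Δ)) + a v ≤ m * (∑ k, Real.log (nm (E.W v) fun i => σ (P k i))) +
          b v + eps v * Real.log ((Fintype.card κ).factorial : ℝ) := by
      intro σ
      set u : κ → ι → AlgebraicClosure K := fun k i => σ (P k i) with hu
      have hu0 : ∀ k, u k ≠ 0 := fun k => comp_ne_zero (hP k) σ
      have hev : ∀ k (q : MvPolynomial ι K), aeval (u k) q = σ (aeval (P k) q) := by
        intro k q
        rw [hu, ← MvPolynomial.comp_aeval_apply]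
      have hσΔ : σ Δ = (Matrix.of fun i k => aeval (u i) (g k)).det := by
        rw [hΔ, AlgHom.map_det]
        congr 1
        ext i k
        simp only [AlgHom.mapMatrix_apply, Matrix.map_apply, Matrix.of_apply, hev]
      have hrel : (Matrix.of fun i k => aeval (u i) (g' k)) =
          (Matrix.of fun i k => aeval (u i) (g k)) *
            (T.map (algebraMap K (AlgebraicClosure K))).transpose := by
        ext i k
        rw [Matrix.mul_apply, Matrix.of_apply]
        have h2 : aeval (u i) (g' k - ∑ k', C (T k k') * g k') = 0 := by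
          rw [hev, hJ i _ (hT k), map_zero]
        rw [map_sub, sub_eq_zero] at h2
        rw [h2, map_sum]
        refine Finset.sum_congr rfl fun k' _ => ?_
        rw [map_mul, aeval_C, Matrix.of_apply, Matrix.transpose_apply, Matrix.map_apply, mul_comm]
      have hdet' : (Matrix.of fun i k => aeval (u i) (g' k)).det =
          σ Δ * algebraMap K (AlgebraicClosure K) T.det := by
        rw [hrel, Matrix.det_mul, Matrix.det_transpose, ← hσΔ]
        congr 1
        rw [RingHom.map_det]
        rfl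
      have hσ0 : σ Δ ≠ 0 := (map_ne_zero_iff σ σ.toRingHom.injective).2 hdet
      have hT0' : algebraMap K (AlgebraicClosure K) T.det ≠ 0 :=
        (map_ne_zero_iff _ (algebraMap K (AlgebraicClosure K)).injective).2 hT0
      have h3 := det_bound E hvm g' hg' u hu0 (by rw [hdet']; exact mul_ne_zero hσ0 hT0')
      rw [hdet', map_mul, E.ext v hvm, Real.log_mul ((E.W v).pos hσ0).ne' (v.pos hT0).ne',
        hTa] at h3
      linarith
    have h2 := Finset.sum_le_sum fun (σ : M →ₐ[K] AlgebraicClosure K) (_ : σ ∈ Finset.univ) => h1 σ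
    simp only [Finset.sum_add_distrib, Finset.sum_const, nsmul_eq_mul, card_emb'] at h2
    rw [← Finset.mul_sum, Finset.sum_comm] at h2
    unfold lh
    linarith
  -- the sum
  have hFS1 : FS (fun v : AbsoluteValue K ℝ => (∑ σ : M →ₐ[K] AlgebraicClosure K,
      Real.log (E.W v (σ Δ))) + Module.finrank K M * a v) := (FS_det E hdet).add (ha.mul_left _)
  have hFSh : FS (fun v : AbsoluteValue K ℝ => ∑ k, lh E v (P k)) :=
    FS.sum Finset.univ fun k _ => FS_lh E (hP k)
  have hFSe : FS (fun v : AbsoluteValue K ℝ => (Module.finrank K M : ℝ) *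
      (eps v * Real.log ((Fintype.card κ).factorial : ℝ))) := by
    refine FS.mul_left _ ?_
    have := (FS_eps (K := K)).mul_left (Real.log ((Fintype.card κ).factorial : ℝ))
    exact this.congr fun v _ => mul_comm _ _
  have hFS2 : FS (fun v : AbsoluteValue K ℝ => (m : ℝ) * (∑ k, lh E v (P k)) +
      Module.finrank K M * b v) := (hFSh.mul_left _).add (hb.mul_left _)
  have h := ls_mono hFS1 (hFS2.add hFSe) hloc
  rw [ls_add (FS_det E hdet) (ha.mul_left _), ls_det E hdet, zero_add, ls_mul_left,
    ls_add hFS2 hFSe, ls_add (hFSh.mul_left _) (hb.mul_left _), ls_mul_left, ls_mul_left,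
    ls_mul_left, ls_sum Finset.univ fun k _ => FS_lh E (hP k)] at h
  have he : ls (fun v : AbsoluteValue K ℝ =>
      eps v * Real.log ((Fintype.card κ).factorial : ℝ)) ≤
      totalWeight K * Real.log ((Fintype.card κ).factorial : ℝ) := by
    have h3 : (fun v : AbsoluteValue K ℝ => eps v * Real.log ((Fintype.card κ).factorial : ℝ)) =
        fun v => Real.log ((Fintype.card κ).factorial : ℝ) * eps v := by
      funext v
      ring
    rw [h3, ls_mul_left, mul_comm]
    exact mul_le_mul_of_nonneg_right ls_eps_le hf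
  have he2 : (Module.finrank K M : ℝ) * ls (fun v : AbsoluteValue K ℝ =>
      eps v * Real.log ((Fintype.card κ).factorial : ℝ)) ≤ Module.finrank K M *
      (totalWeight K * Real.log ((Fintype.card κ).factorial : ℝ)) :=
    mul_le_mul_of_nonneg_left he (Nat.cast_nonneg _)
  unfold hM
  linarith

end Pool.Agent.Helper88.ZN
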