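import Pool.Agent.Helper88.ZN.Fam
import Pool.Agent.Helper88.ZN.Level

/-!
# The inequality and its limit
-/

set_option autoImplicit false

namespace Pool.Agent.Helper88.ZN

open Height AdmissibleAbsValues Pool.Agent.Helper29.TG MvPolynomial

theorem log_factorial_le {R c N : ℕ} (hR : R ≤ c * N ^ 2) :
    Real.log (R.factorial : ℝ) ≤ 2 * (c : ℝ) ^ 2 * N ^ 3 := by
  rcases Nat.eq_zero_or_pos R with h0 | h0
  · rw [h0, Nat.factorial_zero, Nat.cast_one, Real.log_one]
    positivity
  have hR0 : (0 : ℝ) < R := by exact_mod_cast h0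
  have h1 : Real.log (R.factorial : ℝ) ≤ R * Real.log R := by
    rw [← Real.log_pow]
    refine Real.log_le_log (by positivity) ?_
    exact_mod_cast Nat.factorial_le_pow R
  have hc0 : 1 ≤ c := by
    rcases Nat.eq_zero_or_pos c with h | h
    · rw [h, zero_mul] at hR
      omega
    · exact h
  have hc1 : (1 : ℝ) ≤ c := by exact_mod_cast hc0
  have hN0 : (0 : ℝ) ≤ N := Nat.cast_nonneg N
  have hRc : (R : ℝ) ≤ (c * N) ^ 2 := by
    have h2 : (R : ℝ) ≤ c * (N : ℝ) ^ 2 := by exact_mod_cast hR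
    refine h2.trans ?_
    have : (0 : ℝ) ≤ (N : ℝ) ^ 2 := by positivity
    nlinarith
  have hcN : (0 : ℝ) < c * N := by
    by_contra hcon
    rw [not_lt] at hcon
    have h3 : (c : ℝ) * N = 0 := le_antisymm hcon (by positivity)
    rw [h3] at hRc
    norm_num at hRc
    omega
  have h2 : Real.log R ≤ 2 * (c * N) := by
    calc Real.log R ≤ Real.log ((c * N) ^ 2) := Real.log_le_log hR0 hRc
      _ = 2 * Real.log (c * N) := by rw [Real.log_pow]; norm_num
      _ ≤ 2 * (c * N) := by
        have := Real.log_le_sub_one_of_pos hcN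
        linarith
  have hRr : (R : ℝ) ≤ c * (N : ℝ) ^ 2 := by exact_mod_cast hR
  calc Real.log (R.factorial : ℝ) ≤ R * Real.log R := h1
    _ ≤ R * (2 * (c * N)) := mul_le_mul_of_nonneg_left h2 hR0.le
    _ ≤ (c * (N : ℝ) ^ 2) * (2 * (c * N)) := mul_le_mul_of_nonneg_right hRr (by positivity)
    _ = 2 * (c : ℝ) ^ 2 * N ^ 3 := by ring

/-- The limit. -/
theorem limit {ε c₁ c₂ : ℝ} (hε : 0 < ε) (hc₁ : 0 ≤ c₁) (hc₂ : 0 ≤ c₂)
    (h : ∀ N : ℕ, 1 ≤ N → ((N : ℝ) ^ 2 - 1) * (N : ℝ) ^ 2 * ε ≤ c₁ * (N : ℝ) ^ 2 + c₂ * N ^ 3) :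
    False := by
  obtain ⟨N, hN⟩ := exists_nat_gt ((c₁ + c₂ + ε) / ε)
  have h0 : 0 ≤ (c₁ + c₂ + ε) / ε := by positivity
  have hN0 : (0 : ℝ) < N := lt_of_le_of_lt h0 hN
  have hN1 : 1 ≤ N := by
    have : 0 < N := by exact_mod_cast hN0
    omega
  have hN1' : (1 : ℝ) ≤ N := by exact_mod_cast hN1
  rw [div_lt_iff₀ hε] at hN
  have h1 := h N hN1
  have hN2 : (0 : ℝ) < (N : ℝ) ^ 2 := by positivity
  have h2 : ((N : ℝ) ^ 2 - 1) * ε ≤ c₁ + c₂ * N := by
    have h3 : (((N : ℝ) ^ 2 - 1) * ε) * (N : ℝ) ^ 2 ≤ (c₁ + c₂ * N) * (N : ℝ) ^ 2 := by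
      have h4 : c₁ * (N : ℝ) ^ 2 + c₂ * N ^ 3 = (c₁ + c₂ * N) * (N : ℝ) ^ 2 := by ring
      rw [← h4]
      calc (((N : ℝ) ^ 2 - 1) * ε) * (N : ℝ) ^ 2 = ((N : ℝ) ^ 2 - 1) * (N : ℝ) ^ 2 * ε := by ring
        _ ≤ _ := h1
    exact le_of_mul_le_mul_right h3 hN2
  nlinarith

variable {K : Type} [Field K] [AdmissibleAbsValues K] {σ : Type} [Finite σ]

theorem sum_range_id_real (n : ℕ) : ∑ i ∈ Finset.range (n + 1), (i : ℝ) = n * (n + 1) / 2 := by
  induction n with
  | zero => simp
  | succ n ih =>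
    rw [Finset.sum_range_succ, ih]
    push_cast
    ring

/-- **Zhang's inequality and the theorem of Bezout**, core version. -/
theorem core [CharZero K] (E : Ext K) {J : Ideal (MvPolynomial σ K)} {h : MvPolynomial σ K}
    {e m₂ q s : ℕ} {qa : Fin (q + 1) → MvPolynomial σ K} {pc : Fin s → MvPolynomial σ K}
    {F : ℕ → MvPolynomial σ K} {y : σ → K} (D : FData J h e m₂ qa pc F y) (hy : y ≠ 0)
    {A B C₁ : ℝ} (hB : 0 ≤ B) (hC₁ : 0 ≤ C₁)
    (hF : ∀ n : ℕ, ls (fun v : AbsoluteValue K ℝ => lc v (F n)) ≤ A * n + B)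
    (hpts : ∀ n : ℕ, ∃ (M : Type) (_ : Field M) (_ : Algebra K M) (_ : FiniteDimensional K M)
      (P : Ix q s n → σ → M), (∀ κ, P κ ≠ 0) ∧ (∀ κ, ∀ p ∈ J, aeval (P κ) p = 0) ∧
      (Matrix.of fun κ κ' => aeval (P κ) (fam h qa pc F n κ')).det ≠ 0 ∧
      ∀ κ, hM E (P κ) ≤ C₁ * Module.finrank K M) :
    e * logHeight y ≤ (q + 1) * (2 * e * C₁ + ls (fun v : AbsoluteValue K ℝ => lc v h) + A) := by
  classical
  set H : ℝ := ls (fun v : AbsoluteValue K ℝ => lc v h) with hH
  have hH0 : 0 ≤ H := ls_nonneg (FS_lc h) fun v _ => lc_nonneg v h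
  set Q : ℝ := ls (fun v : AbsoluteValue K ℝ => ∑ a, lc v (qa a)) with hQ
  have hQFS : FS (fun v : AbsoluteValue K ℝ => ∑ a, lc v (qa a)) :=
    FS.sum Finset.univ fun a _ => FS_lc (qa a)
  have hQ0 : 0 ≤ Q := ls_nonneg hQFS fun v _ => Finset.sum_nonneg fun a _ => lc_nonneg v _
  set Z : ℝ := ls (fun v : AbsoluteValue K ℝ => ∑ i, lc v (pc i)) with hZ
  have hZFS : FS (fun v : AbsoluteValue K ℝ => ∑ i, lc v (pc i)) :=
    FS.sum Finset.univ fun a _ => FS_lc (pc a)
  have hZ0 : 0 ≤ Z := ls_nonneg hZFS fun v _ => Finset.sum_nonneg fun a _ => lc_nonneg v _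
  set w : ℝ := (totalWeight K : ℝ) with hw
  have hw0 : 0 ≤ w := Nat.cast_nonneg _
  -- the inequality for each `n`
  have key : ∀ n : ℕ, e * (n * (n + 1) / 2) * logHeight y ≤
      (m₂ + n * e) * (((n + 1) * (q + 1) + s) * C₁) +
      ((q + 1) * (n * (n + 1) / 2) * (H + A) + (q + 1) * (n + 1) * B + (n + 1) * Q +
        s * (n + 1) * H + Z + w * Real.log ((((n + 1) * (q + 1) + s).factorial : ℕ) : ℝ)) := by
    intro n
    obtain ⟨M, _, _, _, P, hP0, hPJ, hdet, hPC⟩ := hpts n
    let a : AbsoluteValue K ℝ → ℝ := fun v =>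
      ∑ i ∈ Finset.range (n + 1), ((i * e : ℕ) * Real.log (nm v y) - Real.log (v (eval y (F i))))
    let b : AbsoluteValue K ℝ → ℝ := fun v =>
      (((q + 1) * (n * (n + 1) / 2) * lc v h + (q + 1) * ∑ i ∈ Finset.range (n + 1), lc v (F i)) +
        (n + 1) * ∑ a, lc v (qa a)) + (s * (n + 1) * lc v h + ∑ i, lc v (pc i))
    have ha : FS a := FS.sum _ fun i _ => ((FS_nm hy).mul_left _).sub (FS_log (D.F_y i))
    have hlsa : ls a = e * (n * (n + 1) / 2) * logHeight y := by
      have h1 : ls a = ∑ i ∈ Finset.range (n + 1), ((i * e : ℕ) * logHeight y) := by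
        rw [ls_sum (Finset.range (n + 1)) (f := fun i v =>
          ((i * e : ℕ) * Real.log (nm v y) - Real.log (v (eval y (F i)))))
          fun i _ => ((FS_nm hy).mul_left _).sub (FS_log (D.F_y i))]
        refine Finset.sum_congr rfl fun i _ => ?_
        rw [ls_sub ((FS_nm hy).mul_left _) (FS_log (D.F_y i)), ls_mul_left, ls_nm hy,
          ls_log (D.F_y i), sub_zero]
      rw [h1, ← Finset.sum_mul]
      congr 1
      push_cast
      rw [← Finset.sum_mul, sum_range_id_real]
      ring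
    have hFFS : FS (fun v : AbsoluteValue K ℝ => ∑ i ∈ Finset.range (n + 1), lc v (F i)) :=
      FS.sum _ fun i _ => FS_lc (F i)
    have hb1 : FS (fun v : AbsoluteValue K ℝ => (q + 1) * (n * (n + 1) / 2) * lc v h) :=
      (FS_lc h).mul_left _
    have hb2 : FS (fun v : AbsoluteValue K ℝ =>
        ((q : ℝ) + 1) * ∑ i ∈ Finset.range (n + 1), lc v (F i)) := hFFS.mul_left _
    have hb3 : FS (fun v : AbsoluteValue K ℝ => ((n : ℝ) + 1) * ∑ a, lc v (qa a)) :=
      hQFS.mul_left _
    have hb4 : FS (fun v : AbsoluteValue K ℝ => (s : ℝ) * (n + 1) * lc v h) :=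
      (FS_lc h).mul_left _
    have hb : FS b := ((hb1.add hb2).add hb3).add (hb4.add hZFS)
    have hlsb : ls b ≤ (q + 1) * (n * (n + 1) / 2) * (H + A) + (q + 1) * (n + 1) * B +
        (n + 1) * Q + s * (n + 1) * H + Z := by
      have h1 : ls b = (((q + 1) * (n * (n + 1) / 2) * H +
          (q + 1) * ∑ i ∈ Finset.range (n + 1), ls (fun v : AbsoluteValue K ℝ => lc v (F i))) +
          (n + 1) * Q) + (s * (n + 1) * H + Z) := by
        rw [ls_add ((hb1.add hb2).add hb3) (hb4.add hZFS), ls_add (hb1.add hb2) hb3,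
          ls_add hb1 hb2, ls_add hb4 hZFS, ls_mul_left, ls_mul_left, ls_mul_left, ls_mul_left,
          ls_sum (Finset.range (n + 1)) fun i _ => FS_lc (F i)]
      have h2 : ∑ i ∈ Finset.range (n + 1), ls (fun v : AbsoluteValue K ℝ => lc v (F i)) ≤
          (n * (n + 1) / 2) * A + (n + 1) * B := by
        calc ∑ i ∈ Finset.range (n + 1), ls (fun v : AbsoluteValue K ℝ => lc v (F i)) ≤
            ∑ i ∈ Finset.range (n + 1), (A * i + B) := Finset.sum_le_sum fun i _ => hF i
          _ = (n * (n + 1) / 2) * A + (n + 1) * B := by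
            rw [Finset.sum_add_distrib, ← Finset.mul_sum, sum_range_id_real, Finset.sum_const,
              Finset.card_range, nsmul_eq_mul]
            push_cast
            ring
      have h3 : ((q : ℝ) + 1) * ∑ i ∈ Finset.range (n + 1),
          ls (fun v : AbsoluteValue K ℝ => lc v (F i)) ≤
          (q + 1) * ((n * (n + 1) / 2) * A + (n + 1) * B) :=
        mul_le_mul_of_nonneg_left h2 (by positivity)
      rw [h1]
      linarith
    have hlev := level E J (fam h qa pc F n) P hP0 hPJ hdet (m := m₂ + n * e) a b ha hb (by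
      intro v hv
      obtain ⟨k, hk, hnk⟩ := exists_nm_eq v hy
      obtain ⟨T, hT, hTdet⟩ := exists_T D n k
      have hfac : ∀ i, y k ^ (i * e) / eval y (F i) ≠ 0 := fun i =>
        div_ne_zero (pow_ne_zero _ hk) (D.F_y i)
      refine ⟨famX h e qa pc F n k, T, famX_deg D k, hT, ?_, ?_, ?_⟩
      · rw [hTdet]
        exact Finset.prod_ne_zero_iff.2 fun i _ => hfac i
      · rw [hTdet, map_prod, Real.log_prod]
        · refine Finset.sum_congr rfl fun i _ => ?_
          rw [map_div₀, map_pow, Real.log_div, Real.log_pow, ← hnk]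
          · exact pow_ne_zero _ (v.pos hk).ne'
          · exact (v.pos (D.F_y i)).ne'
        · exact fun i _ => (v.pos (hfac i)).ne'
      · -- the norms of the family
        have hterm : ∀ (j : Fin (n + 1)) (a : Fin (q + 1)),
            lc v (famX h e qa pc F n k (Sum.inl (j, a))) ≤
              (j : ℕ) * lc v h + lc v (F (n - j)) + lc v (qa a) := by
          intro j a
          have h1 : lc v (if a = 0 then (X k : MvPolynomial σ K) ^ ((n - (j : ℕ)) * e)
              else F (n - j)) ≤ lc v (F (n - j)) := by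
            split_ifs
            · rw [lc_X_pow]
              exact lc_nonneg v _
            · exact le_rfl
          have h2 := lc_mul v (h ^ (j : ℕ)) ((if a = 0 then (X k : MvPolynomial σ K) ^
            ((n - (j : ℕ)) * e) else F (n - j)) * qa a)
          have h3 := lc_mul v (if a = 0 then (X k : MvPolynomial σ K) ^
            ((n - (j : ℕ)) * e) else F (n - j)) (qa a)
          have h4 := lc_pow v h (j : ℕ)
          change lc v (h ^ (j : ℕ) * ((if a = 0 then X k ^ ((n - (j : ℕ)) * e)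
            else F (n - j)) * qa a)) ≤ _
          linarith
        have hterm2 : ∀ i, lc v (famX h e qa pc F n k (Sum.inr i)) ≤
            (n + 1) * lc v h + lc v (pc i) := by
          intro i
          have h2 := lc_mul v (h ^ (n + 1)) (pc i)
          have h4 := lc_pow v h (n + 1)
          push_cast at h4
          change lc v (h ^ (n + 1) * pc i) ≤ _
          linarith
        rw [Fintype.sum_sum_type, Fintype.sum_prod_type]
        refine add_le_add ?_ ?_
        · have h1 : ∀ j : Fin (n + 1), ∑ a, lc v (famX h e qa pc F n k (Sum.inl (j, a))) ≤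
              (q + 1) * ((j : ℕ) * lc v h + lc v (F (n - j))) + ∑ a, lc v (qa a) := by
            intro j
            refine (Finset.sum_le_sum fun a _ => hterm j a).trans ?_
            rw [Finset.sum_add_distrib, Finset.sum_const, Finset.card_univ, Fintype.card_fin,
              nsmul_eq_mul]
            push_cast
            exact le_rfl
          refine (Finset.sum_le_sum fun j _ => h1 j).trans ?_
          rw [Finset.sum_add_distrib, Finset.sum_const, Finset.card_univ, Fintype.card_fin,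
            nsmul_eq_mul, ← Finset.mul_sum, Finset.sum_add_distrib, ← Finset.sum_mul]
          have h2 : ∑ j : Fin (n + 1), (((j : ℕ) : ℝ)) = n * (n + 1) / 2 := by
            rw [Fin.sum_univ_eq_sum_range (fun j => (j : ℝ)) (n + 1), sum_range_id_real]
          have h3 : ∑ j : Fin (n + 1), lc v (F (n - (j : ℕ))) =
              ∑ i ∈ Finset.range (n + 1), lc v (F i) := by
            rw [Fin.sum_univ_eq_sum_range (fun j => lc v (F (n - j))) (n + 1)]
            exact Finset.sum_range_reflect (fun i => lc v (F i)) (n + 1)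
          rw [h2, h3]
          push_cast
          apply le_of_eq
          ring
        · refine (Finset.sum_le_sum fun i _ => hterm2 i).trans ?_
          rw [Finset.sum_add_distrib, Finset.sum_const, Finset.card_univ, Fintype.card_fin,
            nsmul_eq_mul]
          apply le_of_eq
          ring)
    have hMpos : (0 : ℝ) < Module.finrank K M := by
      exact_mod_cast Module.finrank_pos
    have hcard : Fintype.card (Ix q s n) = (n + 1) * (q + 1) + s := by
      rw [Fintype.card_sum, Fintype.card_prod, Fintype.card_fin, Fintype.card_fin,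
        Fintype.card_fin]
    have hsum : ∑ κ, hM E (P κ) ≤ ((n + 1) * (q + 1) + s) * C₁ * Module.finrank K M := by
      calc ∑ κ, hM E (P κ) ≤ ∑ κ : Ix q s n, C₁ * Module.finrank K M :=
            Finset.sum_le_sum fun κ _ => hPC κ
        _ = _ := by
          rw [Finset.sum_const, Finset.card_univ, hcard, nsmul_eq_mul]
          push_cast
          ring
    rw [hcard, hlsa] at hlev
    have h5 : (Module.finrank K M : ℝ) * (e * (n * (n + 1) / 2) * logHeight y) ≤
        Module.finrank K M * ((m₂ + n * e) * (((n + 1) * (q + 1) + s) * C₁) +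
      ((q + 1) * (n * (n + 1) / 2) * (H + A) + (q + 1) * (n + 1) * B + (n + 1) * Q +
        s * (n + 1) * H + Z + w * Real.log ((((n + 1) * (q + 1) + s).factorial : ℕ) : ℝ))) := by
      refine hlev.trans ?_
      have h6 : ((m₂ + n * e : ℕ) : ℝ) * ∑ κ, hM E (P κ) ≤
          (m₂ + n * e) * (((n + 1) * (q + 1) + s) * C₁ * Module.finrank K M) := by
        push_cast
        exact mul_le_mul_of_nonneg_left hsum (by positivity)
      have h7 : (Module.finrank K M : ℝ) * (ls b +
          totalWeight K * Real.log ((((n + 1) * (q + 1) + s).factorial : ℕ) : ℝ)) ≤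
          Module.finrank K M * ((q + 1) * (n * (n + 1) / 2) * (H + A) + (q + 1) * (n + 1) * B +
        (n + 1) * Q + s * (n + 1) * H + Z +
        w * Real.log ((((n + 1) * (q + 1) + s).factorial : ℕ) : ℝ)) :=
        mul_le_mul_of_nonneg_left (by linarith) hMpos.le
      calc _ ≤ (m₂ + n * e) * (((n + 1) * (q + 1) + s) * C₁ * Module.finrank K M) + _ :=
            add_le_add h6 h7
        _ = _ := by ring
    exact le_of_mul_le_mul_left h5 hMpos
  -- the limit
  by_contra hcon
  rw [not_le] at hcon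
  set ε : ℝ := e * logHeight y - (q + 1) * (2 * e * C₁ + H + A) with hε
  have hε0 : 0 < ε := by
    rw [hε]
    linarith
  set c₁ : ℝ := 2 * ((q + 1) * C₁ * m₂ + s * (m₂ + e) * C₁ + (q + 1) * B + Q + s * H + Z) with hc₁
  have hc₁0 : 0 ≤ c₁ := by
    rw [hc₁]
    positivity
  set c : ℕ := q + 1 + s with hc
  refine limit (ε := ε) (c₁ := c₁) (c₂ := 2 * (w * (2 * (c : ℝ) ^ 2))) hε0 hc₁0 (by positivity)
    fun N hN => ?_
  obtain ⟨n, hn⟩ : ∃ n : ℕ, n + 1 = N ^ 2 := by
    refine ⟨N ^ 2 - 1, Nat.sub_add_cancel ?_⟩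
    exact Nat.one_le_pow _ _ hN
  have hn' : (n : ℝ) + 1 = (N : ℝ) ^ 2 := by exact_mod_cast hn
  have hn'' : (n : ℝ) = (N : ℝ) ^ 2 - 1 := by linarith
  have hn0 : (0 : ℝ) ≤ n := Nat.cast_nonneg n
  have hR : (n + 1) * (q + 1) + s ≤ c * N ^ 2 := by
    rw [← hn, hc]
    nlinarith
  have h1 := key n
  have h2 := mul_le_mul_of_nonneg_left (log_factorial_le hR) hw0
  have h3 : e * (n * (n + 1) / 2) * logHeight y =
      (n * (n + 1) / 2) * (ε + (q + 1) * (2 * e * C₁ + H + A)) := by
    rw [hε]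
    ring
  rw [h3] at h1
  have h4 : (n : ℝ) * (n + 1) * ε ≤ c₁ * (n + 1) + 2 * (w * (2 * (c : ℝ) ^ 2 * N ^ 3)) := by
    have h5 : (0 : ℝ) ≤ s * m₂ * C₁ * n := by positivity
    have h6 : (0 : ℝ) ≤ s * e * C₁ := by positivity
    have h7 : 0 ≤ Z * n := by positivity
    have h8 : (m₂ + n * e) * (((n + 1) * (q + 1) + s) * C₁) =
        (n * (n + 1) / 2) * ((q + 1) * (2 * e * C₁)) + (n + 1) * ((q + 1) * C₁ * m₂) +
          (m₂ + n * e) * s * C₁ := by ring
    rw [hc₁]
    nlinarith
  calc ((N : ℝ) ^ 2 - 1) * (N : ℝ) ^ 2 * ε = n * (n + 1) * ε := by rw [hn', hn'']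
    _ ≤ c₁ * (n + 1) + 2 * (w * (2 * (c : ℝ) ^ 2 * N ^ 3)) := h4
    _ = _ := by
      rw [hn']
      ring

end Pool.Agent.Helper88.ZN
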