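import Mathlib
import Pool.Agent.Helper36.Growth

/-!
# The family of forms and the change of the linear form, one zero
-/

set_option autoImplicit false

namespace Pool.Agent.Helper88.ZN

open MvPolynomial

variable {σ : Type} {K : Type} [Field K]

/-- The data: `J` a homogeneous ideal, `h` a form of degree `e`, `F n` forms of degree `n e`, `qa`
forms of degree `m₂` such that `F n * qa` is a basis modulo `J + (h)` in degree `m₂ + n e`, and
`y` a common zero of `J` and `h`. -/
structure FData (J : Ideal (MvPolynomial σ K)) (h : MvPolynomial σ K) (e m₂ : ℕ) {q s : ℕ}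
    (qa : Fin (q + 1) → MvPolynomial σ K) (pc : Fin s → MvPolynomial σ K)
    (F : ℕ → MvPolynomial σ K) (y : σ → K) : Prop where
  prime : J.IsPrime
  hom : ∀ p ∈ J, ∀ n, homogeneousComponent n p ∈ J
  h_hom : h.IsHomogeneous e
  h_not : h ∉ J
  e_le : e ≤ m₂
  F_hom : ∀ n, (F n).IsHomogeneous (n * e)
  F_y : ∀ n, eval y (F n) ≠ 0
  qa_hom : ∀ a, (qa a).IsHomogeneous m₂
  qa_y : ∀ a, a ≠ 0 → eval y (qa a) = 0
  qa_y0 : eval y (qa 0) ≠ 0
  pc_hom : ∀ i, (pc i).IsHomogeneous (m₂ - e)
  pc_span : ∀ p : MvPolynomial σ K, p.IsHomogeneous (m₂ - e) →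
    ∃ a : Fin s → K, p - ∑ i, C (a i) * pc i ∈ J
  pc_ind : ∀ a : Fin s → K, ∑ i, C (a i) * pc i ∈ J → a = 0
  span : ∀ n (p : MvPolynomial σ K), p.IsHomogeneous (m₂ + n * e) →
    ∃ a : Fin (q + 1) → K, p - ∑ i, C (a i) * (F n * qa i) ∈ J ⊔ Ideal.span {h}
  ind : ∀ n (a : Fin (q + 1) → K), ∑ i, C (a i) * (F n * qa i) ∈ J ⊔ Ideal.span {h} → a = 0
  J_y : ∀ p ∈ J, eval y p = 0
  h_y : eval y h = 0

/-- The index type of the family. -/
abbrev Ix (q s n : ℕ) : Type := (Fin (n + 1) × Fin (q + 1)) ⊕ Fin s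

/-- The family of forms of degree `m₂ + n e`. -/
noncomputable def fam (h : MvPolynomial σ K) {q s : ℕ} (qa : Fin (q + 1) → MvPolynomial σ K)
    (pc : Fin s → MvPolynomial σ K) (F : ℕ → MvPolynomial σ K) (n : ℕ) :
    Ix q s n → MvPolynomial σ K
  | Sum.inl (j, a) => h ^ (j : ℕ) * (F (n - j) * qa a)
  | Sum.inr i => h ^ (n + 1) * pc i

/-- The family with the powers of a variable. -/
noncomputable def famX (h : MvPolynomial σ K) (e : ℕ) {q s : ℕ}
    (qa : Fin (q + 1) → MvPolynomial σ K) (pc : Fin s → MvPolynomial σ K)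
    (F : ℕ → MvPolynomial σ K) (n : ℕ) (k : σ) : Ix q s n → MvPolynomial σ K
  | Sum.inl (j, a) => h ^ (j : ℕ) * ((if a = 0 then X k ^ ((n - j) * e) else F (n - j)) * qa a)
  | Sum.inr i => h ^ (n + 1) * pc i

section

variable {J : Ideal (MvPolynomial σ K)} {h : MvPolynomial σ K} {e m₂ : ℕ} {q s : ℕ}
  {qa : Fin (q + 1) → MvPolynomial σ K} {pc : Fin s → MvPolynomial σ K}
  {F : ℕ → MvPolynomial σ K} {y : σ → K}

omit [Field K] in
theorem deg_eq {j n e m₂ : ℕ} (hj : j ≤ n) : e * j + ((n - j) * e + m₂) = m₂ + n * e := by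
  obtain ⟨t, rfl⟩ := Nat.exists_eq_add_of_le hj
  rw [Nat.add_sub_cancel_left]
  ring

theorem fam_deg (D : FData J h e m₂ qa pc F y) {n : ℕ} (κ : Ix q s n) :
    (fam h qa pc F n κ).IsHomogeneous (m₂ + n * e) := by
  rcases κ with ⟨j, a⟩ | i
  · have h1 := (D.h_hom.pow (j : ℕ)).mul ((D.F_hom (n - j)).mul (D.qa_hom a))
    rw [deg_eq (Nat.lt_succ_iff.1 j.2)] at h1
    exact h1
  · have h1 := (D.h_hom.pow (n + 1)).mul (D.pc_hom i)
    have h2 : e * (n + 1) + (m₂ - e) = m₂ + n * e := by
      have := D.e_le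
      obtain ⟨t, ht⟩ := Nat.exists_eq_add_of_le this
      rw [ht, Nat.add_sub_cancel_left]
      ring
    rw [h2] at h1
    exact h1

theorem famX_deg (D : FData J h e m₂ qa pc F y) {n : ℕ} (k : σ) (κ : Ix q s n) :
    (famX h e qa pc F n k κ).IsHomogeneous (m₂ + n * e) := by
  rcases κ with ⟨j, a⟩ | i
  · have h0 : (if a = 0 then (X k : MvPolynomial σ K) ^ ((n - (j : ℕ)) * e)
        else F (n - j)).IsHomogeneous ((n - j) * e) := by
      split_ifs
      · exact isHomogeneous_X_pow k _
      · exact D.F_hom _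
    have h1 := (D.h_hom.pow (j : ℕ)).mul (h0.mul (D.qa_hom a))
    rw [deg_eq (Nat.lt_succ_iff.1 j.2)] at h1
    exact h1
  · exact fam_deg D (Sum.inr i)

/-- Homogeneous elements of `J + (h)`. -/
theorem exists_quot (D : FData J h e m₂ qa pc F y) {m : ℕ} {p : MvPolynomial σ K}
    (hp : p.IsHomogeneous m) (hem : e ≤ m) (hpJ : p ∈ J ⊔ Ideal.span {h}) :
    ∃ r : MvPolynomial σ K, r.IsHomogeneous (m - e) ∧ p - h * r ∈ J := by
  obtain ⟨x, hx, w, hw, hxw⟩ := Submodule.mem_sup.1 hpJ
  obtain ⟨r, rfl⟩ := Ideal.mem_span_singleton'.1 hw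
  refine ⟨homogeneousComponent (m - e) r, homogeneousComponent_isHomogeneous _ _, ?_⟩
  have h1 := congrArg (homogeneousComponent m) hxw
  rw [map_add, homogeneousComponent_eq_self hp] at h1
  have h2 : homogeneousComponent m (r * h) = homogeneousComponent (m - e) r * h := by
    have h3 := Pool.Agent.Helper36.homogeneousComponent_mul_of_homogeneous (M := m - e) D.h_hom r
    rwa [Nat.sub_add_cancel hem] at h3
  rw [h2] at h1
  have h4 : p - h * homogeneousComponent (m - e) r = homogeneousComponent m x := by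
    rw [← h1]
    ring
  rw [h4]
  exact D.hom x hx m

/-- The expansion of the forms of the lowest degree. -/
theorem expand_low (D : FData J h e m₂ qa pc F y) (n : ℕ) {p : MvPolynomial σ K}
    (hp : p.IsHomogeneous (m₂ - e)) :
    ∃ c : Ix q s n → K, h ^ (n + 1) * p - ∑ κ, C (c κ) * fam h qa pc F n κ ∈ J ∧
      ∀ j a, c (Sum.inl (j, a)) = 0 := by
  obtain ⟨a, ha⟩ := D.pc_span p hp
  refine ⟨Sum.elim (fun _ => 0) a, ?_, fun _ _ => rfl⟩
  rw [Fintype.sum_sum_type]
  simp only [Sum.elim_inl, Sum.elim_inr, map_zero, zero_mul, Finset.sum_const_zero, zero_add]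
  have h1 : h ^ (n + 1) * p - ∑ i, C (a i) * fam h qa pc F n (Sum.inr i) =
      h ^ (n + 1) * (p - ∑ i, C (a i) * pc i) := by
    rw [mul_sub, Finset.mul_sum]
    congr 1
    refine Finset.sum_congr rfl fun i _ => ?_
    unfold fam
    ring
  rw [h1]
  exact J.mul_mem_left _ ha

/-- The expansion of the forms. -/
theorem expand (D : FData J h e m₂ qa pc F y) (n : ℕ) : ∀ (i : ℕ), i ≤ n →
    ∀ p : MvPolynomial σ K, p.IsHomogeneous (m₂ + i * e) →
    ∃ c : Ix q s n → K, h ^ (n - i) * p - ∑ κ, C (c κ) * fam h qa pc F n κ ∈ J ∧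
      (∀ (j : Fin (n + 1)) (a : Fin (q + 1)), (j : ℕ) < n - i → c (Sum.inl (j, a)) = 0) ∧
      ∀ j : Fin (n + 1), (j : ℕ) = n - i →
        p - ∑ a, C (c (Sum.inl (j, a))) * (F i * qa a) ∈ J ⊔ Ideal.span {h} := by
  classical
  intro i
  induction i with
  | zero =>
    intro hi p hp
    obtain ⟨a, ha⟩ := D.span 0 p hp
    rw [zero_mul, add_zero] at hp
    have hs : (∑ i, C (a i) * (F 0 * qa i)).IsHomogeneous m₂ := by
      refine IsHomogeneous.sum _ _ _ fun i _ => ?_
      have := (D.F_hom 0).mul (D.qa_hom i)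
      rw [zero_mul, zero_add] at this
      exact this.C_mul _
    obtain ⟨r, hr, hrJ⟩ := exists_quot D (hp.sub hs) D.e_le ha
    obtain ⟨c, hc, hc0⟩ := expand_low D n hr
    let j₀ : Fin (n + 1) := Fin.last n
    refine ⟨fun κ => c κ + Sum.elim (fun ja : Fin (n + 1) × Fin (q + 1) =>
      if ja.1 = j₀ then a ja.2 else 0) (fun _ => 0) κ, ?_, ?_, ?_⟩
    · have h1 : ∑ κ : Ix q s n, C (c κ + Sum.elim (fun ja : Fin (n + 1) × Fin (q + 1) =>
          if ja.1 = j₀ then a ja.2 else 0) (fun _ => 0) κ) * fam h qa pc F n κ =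
          (∑ κ, C (c κ) * fam h qa pc F n κ) + h ^ n * ∑ i, C (a i) * (F 0 * qa i) := by
        simp only [map_add, add_mul, Finset.sum_add_distrib]
        congr 1
        rw [Fintype.sum_sum_type]
        simp only [Sum.elim_inl, Sum.elim_inr, map_zero, zero_mul, Finset.sum_const_zero, add_zero]
        rw [Fintype.sum_prod_type, Finset.sum_eq_single j₀]
        · simp only [if_true]
          rw [Finset.mul_sum]
          refine Finset.sum_congr rfl fun i _ => ?_
          unfold fam
          simp only [j₀, Fin.val_last, Nat.sub_self]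
          ring
        · intro j _ hj
          simp [hj]
        · intro hj
          exact absurd (Finset.mem_univ _) hj
      rw [h1, Nat.sub_zero]
      have h2 : h ^ n * p - ((∑ κ, C (c κ) * fam h qa pc F n κ) +
          h ^ n * ∑ i, C (a i) * (F 0 * qa i)) =
          h ^ n * (p - (∑ i, C (a i) * (F 0 * qa i)) - h * r) +
            (h ^ (n + 1) * r - ∑ κ, C (c κ) * fam h qa pc F n κ) := by
        ring
      rw [h2]
      exact J.add_mem (J.mul_mem_left _ hrJ) hc
    · intro j b hj
      have h3 : j ≠ j₀ := by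
        intro h4
        rw [h4] at hj
        simp only [j₀, Fin.val_last, Nat.sub_zero, lt_irrefl] at hj
      simp [hc0, h3]
    · intro j hj
      have h3 : j = j₀ := by
        apply Fin.ext
        rw [hj]
        simp [j₀]
      subst h3
      simp only [hc0, zero_add, Sum.elim_inl, if_true]
      exact ha
  | succ i ih =>
    intro hi p hp
    obtain ⟨a, ha⟩ := D.span (i + 1) p hp
    have hs : (∑ b, C (a b) * (F (i + 1) * qa b)).IsHomogeneous (m₂ + (i + 1) * e) := by
      refine IsHomogeneous.sum _ _ _ fun b _ => ?_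
      have := (D.F_hom (i + 1)).mul (D.qa_hom b)
      rw [add_comm ((i + 1) * e) m₂] at this
      exact this.C_mul _
    have hle : e ≤ m₂ + (i + 1) * e := by
      have := D.e_le
      omega
    obtain ⟨r, hr, hrJ⟩ := exists_quot D (hp.sub hs) hle ha
    have hdeg : m₂ + (i + 1) * e - e = m₂ + i * e := by
      rw [Nat.add_mul, one_mul]
      omega
    rw [hdeg] at hr
    obtain ⟨c, hc, hc0, -⟩ := ih (by omega) r hr
    have hlt : n - (i + 1) < n + 1 := by omega
    let j₀ : Fin (n + 1) := ⟨n - (i + 1), hlt⟩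
    have hj₀ : (j₀ : ℕ) = n - (i + 1) := rfl
    have hc00 : ∀ a, c (Sum.inl (j₀, a)) = 0 := fun a => hc0 j₀ a (by rw [hj₀]; omega)
    refine ⟨fun κ => c κ + Sum.elim (fun ja : Fin (n + 1) × Fin (q + 1) =>
      if ja.1 = j₀ then a ja.2 else 0) (fun _ => 0) κ, ?_, ?_, ?_⟩
    · have h1 : ∑ κ : Ix q s n, C (c κ + Sum.elim (fun ja : Fin (n + 1) × Fin (q + 1) =>
          if ja.1 = j₀ then a ja.2 else 0) (fun _ => 0) κ) * fam h qa pc F n κ =
          (∑ κ, C (c κ) * fam h qa pc F n κ) +
            h ^ (n - (i + 1)) * ∑ b, C (a b) * (F (i + 1) * qa b) := by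
        simp only [map_add, add_mul, Finset.sum_add_distrib]
        congr 1
        rw [Fintype.sum_sum_type]
        simp only [Sum.elim_inl, Sum.elim_inr, map_zero, zero_mul, Finset.sum_const_zero, add_zero]
        rw [Fintype.sum_prod_type, Finset.sum_eq_single j₀]
        · simp only [if_true]
          rw [Finset.mul_sum]
          refine Finset.sum_congr rfl fun b _ => ?_
          have h5 : n - (n - (i + 1)) = i + 1 := by omega
          change C (a b) * (h ^ (j₀ : ℕ) * (F (n - (j₀ : ℕ)) * qa b)) = _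
          rw [hj₀, h5]
          ring
        · intro j _ hj
          simp [hj]
        · intro hj
          exact absurd (Finset.mem_univ _) hj
      rw [h1]
      have hpow : h ^ (n - i) = h ^ (n - (i + 1)) * h := by
        rw [← pow_succ]
        congr 1
        omega
      have h2 : h ^ (n - (i + 1)) * p - ((∑ κ, C (c κ) * fam h qa pc F n κ) +
          h ^ (n - (i + 1)) * ∑ b, C (a b) * (F (i + 1) * qa b)) =
          h ^ (n - (i + 1)) * (p - (∑ b, C (a b) * (F (i + 1) * qa b)) - h * r) +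
            (h ^ (n - i) * r - ∑ κ, C (c κ) * fam h qa pc F n κ) := by
        rw [hpow]
        ring
      rw [h2]
      exact J.add_mem (J.mul_mem_left _ hrJ) hc
    · intro j b hj
      have h3 : j ≠ j₀ := by
        intro h4
        rw [h4, hj₀] at hj
        exact lt_irrefl _ hj
      have h4 : c (Sum.inl (j, b)) = 0 := hc0 j b (by omega)
      simp [h4, h3]
    · intro j hj
      have h3 : j = j₀ := Fin.ext hj
      subst h3
      simp only [hc00, zero_add, Sum.elim_inl, if_true]
      exact ha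

/-- The order of the indices. -/
def ord {q s n : ℕ} : Ix q s n → ℕ
  | Sum.inl (j, a) => (j : ℕ) * (q + 1) + a
  | Sum.inr i => (n + 1) * (q + 1) + i

theorem ord_inl_lt {q s n : ℕ} (j : Fin (n + 1)) (a : Fin (q + 1)) :
    ord (Sum.inl (j, a) : Ix q s n) < (n + 1) * (q + 1) := by
  show (j : ℕ) * (q + 1) + a < (n + 1) * (q + 1)
  have h1 : (j : ℕ) ≤ n := Nat.lt_succ_iff.1 j.2
  have h2 : (a : ℕ) < q + 1 := a.2
  nlinarith

theorem ord_injective {q s n : ℕ} : Function.Injective (ord : Ix q s n → ℕ) := by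
  rintro (⟨j, a⟩ | i) (⟨j', a'⟩ | i') h
  · have h1 : (j : ℕ) * (q + 1) + a = (j' : ℕ) * (q + 1) + a' := h
    have ha : (a : ℕ) < q + 1 := a.2
    have ha' : (a' : ℕ) < q + 1 := a'.2
    have h2 : (j : ℕ) = j' := by
      have h3 : ((j : ℕ) * (q + 1) + a) / (q + 1) = ((j' : ℕ) * (q + 1) + a') / (q + 1) := by
        rw [h1]
      rw [mul_comm (j : ℕ), mul_comm (j' : ℕ), Nat.mul_add_div (Nat.succ_pos q),
        Nat.mul_add_div (Nat.succ_pos q), Nat.div_eq_of_lt ha, Nat.div_eq_of_lt ha'] at h3
      exact h3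
    rw [h2] at h1
    have h3 : (a : ℕ) = a' := Nat.add_left_cancel h1
    rw [Fin.ext h2, Fin.ext h3]
  · have h1 := ord_inl_lt (s := s) j a
    rw [h] at h1
    have h2 : ord (Sum.inr i' : Ix q s n) = (n + 1) * (q + 1) + i' := rfl
    omega
  · have h1 := ord_inl_lt (s := s) j' a'
    rw [← h] at h1
    have h2 : ord (Sum.inr i : Ix q s n) = (n + 1) * (q + 1) + i := rfl
    omega
  · have h1 : (n + 1) * (q + 1) + (i : ℕ) = (n + 1) * (q + 1) + i' := h
    rw [Fin.ext (Nat.add_left_cancel h1)]

/-- A triangular determinant. -/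
theorem det_tri {q s n : ℕ} (T : Matrix (Ix q s n) (Ix q s n) K)
    (hT : ∀ κ κ', ord κ' < ord κ → T κ κ' = 0) : T.det = ∏ κ, T κ κ := by
  let _ : LinearOrder (Ix q s n) := LinearOrder.lift' ord ord_injective
  exact Matrix.det_of_isUpperTriangular fun κ κ' hκ => hT κ κ' hκ

/-- **The change of the form**: from the family to the family with the powers of the variable
`k`. -/
theorem exists_T (D : FData J h e m₂ qa pc F y) (n : ℕ) (k : σ) :
    ∃ T : Matrix (Ix q s n) (Ix q s n) K,
      (∀ κ, famX h e qa pc F n k κ - ∑ κ', C (T κ κ') * fam h qa pc F n κ' ∈ J) ∧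
      T.det = ∏ i ∈ Finset.range (n + 1), (y k ^ (i * e) / eval y (F i)) := by
  classical
  have hrow : ∀ κ : Ix q s n, ∃ c : Ix q s n → K,
      famX h e qa pc F n k κ - ∑ κ', C (c κ') * fam h qa pc F n κ' ∈ J ∧
      (∀ κ', ord κ' < ord κ → c κ' = 0) ∧
      c κ = Sum.elim (fun ja : Fin (n + 1) × Fin (q + 1) =>
        if ja.2 = 0 then y k ^ ((n - ja.1) * e) / eval y (F (n - ja.1)) else 1)
        (fun _ => 1) κ := by
    intro κ
    -- the unchanged elements
    have hid : famX h e qa pc F n k κ = fam h qa pc F n κ →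
        (Sum.elim (fun ja : Fin (n + 1) × Fin (q + 1) =>
        if ja.2 = 0 then y k ^ ((n - ja.1) * e) / eval y (F (n - ja.1)) else 1)
        (fun _ => 1) κ = (1 : K)) → ∃ c : Ix q s n → K,
      famX h e qa pc F n k κ - ∑ κ', C (c κ') * fam h qa pc F n κ' ∈ J ∧
      (∀ κ', ord κ' < ord κ → c κ' = 0) ∧
      c κ = Sum.elim (fun ja : Fin (n + 1) × Fin (q + 1) =>
        if ja.2 = 0 then y k ^ ((n - ja.1) * e) / eval y (F (n - ja.1)) else 1)
        (fun _ => 1) κ := by
      intro h1 h2
      refine ⟨fun κ' => if κ' = κ then 1 else 0, ?_, fun κ' hκ => ?_, ?_⟩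
      · have h3 : ∑ κ', C (if κ' = κ then (1 : K) else 0) * fam h qa pc F n κ' =
            fam h qa pc F n κ := by
          rw [Finset.sum_eq_single κ]
          · simp
          · intro κ' _ hκ
            simp [hκ]
          · intro hκ
            exact absurd (Finset.mem_univ _) hκ
        rw [h3, h1, sub_self]
        exact J.zero_mem
      · have h3 : κ' ≠ κ := fun h4 => by
          rw [h4] at hκ
          exact lt_irrefl _ hκ
        exact if_neg h3
      · rw [h2]
        simp
    rcases κ with ⟨j, a⟩ | i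
    · by_cases ha : a = 0
      · subst ha
        set i : ℕ := n - j with hi
        have hjn : (j : ℕ) ≤ n := Nat.lt_succ_iff.1 j.2
        have hdeg : (X k ^ (i * e) * qa 0).IsHomogeneous (m₂ + i * e) := by
          have := (isHomogeneous_X_pow (R := K) k (i * e)).mul (D.qa_hom 0)
          rwa [add_comm (i * e) m₂] at this
        obtain ⟨c, hc, hc0, hcj⟩ := expand D n i (Nat.sub_le _ _) _ hdeg
        have hni : n - i = j := by omega
        rw [hni] at hc hc0 hcj
        refine ⟨c, ?_, fun κ' hκ => ?_, ?_⟩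
        · have h1 : famX h e qa pc F n k (Sum.inl (j, 0)) = h ^ (j : ℕ) * (X k ^ (i * e) * qa 0) := by
            unfold famX
            simp only [if_true]
            rfl
          rw [h1]
          exact hc
        · rcases κ' with ⟨j', a'⟩ | i'
          · apply hc0
            by_contra hcon
            rw [not_lt] at hcon
            have h1 : (j' : ℕ) * (q + 1) + a' < (j : ℕ) * (q + 1) + (0 : Fin (q + 1)) := hκ
            rw [Fin.val_zero, add_zero] at h1
            have h2 : (j : ℕ) * (q + 1) ≤ (j' : ℕ) * (q + 1) := Nat.mul_le_mul_right _ hcon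
            omega
          · exfalso
            have h1 := ord_inl_lt (s := s) j (0 : Fin (q + 1))
            have h2 : (n + 1) * (q + 1) + (i' : ℕ) < ord (Sum.inl (j, 0) : Ix q s n) := hκ
            omega
        · simp only [Sum.elim_inl, if_true]
          have h1 := hcj j rfl
          have h2 : eval y (X k ^ (i * e) * qa 0 -
              ∑ a, C (c (Sum.inl (j, a))) * (F i * qa a)) = 0 := by
            obtain ⟨x, hx, w, hw, hxw⟩ := Submodule.mem_sup.1 h1
            obtain ⟨r, rfl⟩ := Ideal.mem_span_singleton'.1 hw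
            rw [← hxw, map_add, map_mul, D.h_y, mul_zero, add_zero]
            exact D.J_y x hx
          rw [map_sub, map_mul, map_pow, eval_X, map_sum, Finset.sum_eq_single 0] at h2
          · simp only [map_mul, eval_C] at h2
            have h3 : y k ^ (i * e) * eval y (qa 0) =
                c (Sum.inl (j, 0)) * eval y (F i) * eval y (qa 0) := by
              linear_combination h2
            have h4 := mul_right_cancel₀ D.qa_y0 h3
            rw [eq_div_iff (D.F_y _)]
            exact h4.symm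
          · intro a _ ha
            rw [map_mul, map_mul, D.qa_y a ha, mul_zero, mul_zero]
          · intro ha
            exact absurd (Finset.mem_univ _) ha
      · refine hid ?_ ?_
        · unfold famX fam
          simp only [if_neg ha]
        · simp only [Sum.elim_inl, if_neg ha]
    · exact hid rfl rfl
  choose T hT1 hT2 hT3 using hrow
  refine ⟨Matrix.of T, fun κ => hT1 κ, ?_⟩
  rw [det_tri (Matrix.of T) fun κ κ' hκ => hT2 κ κ' hκ]
  simp only [Matrix.of_apply, hT3]
  rw [Fintype.prod_sum_type, Fintype.prod_prod_type]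
  simp only [Sum.elim_inl, Sum.elim_inr, Finset.prod_const_one, mul_one]
  have h1 : ∀ j : Fin (n + 1), (∏ a : Fin (q + 1),
      if a = 0 then y k ^ ((n - (j : ℕ)) * e) / eval y (F (n - j)) else 1) =
      y k ^ ((n - (j : ℕ)) * e) / eval y (F (n - j)) := by
    intro j
    rw [Finset.prod_ite_eq' Finset.univ (0 : Fin (q + 1))]
    simp
  rw [Finset.prod_congr rfl fun j _ => h1 j,
    Fin.prod_univ_eq_prod_range (fun j => y k ^ ((n - j) * e) / eval y (F (n - j))) (n + 1)]
  exact Finset.prod_range_reflect (fun i => y k ^ (i * e) / eval y (F i)) (n + 1)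

/-- The family is linearly independent modulo `J`. -/
theorem fam_ind (D : FData J h e m₂ qa pc F y) (n : ℕ) (c : Ix q s n → K)
    (hc : ∑ κ, C (c κ) * fam h qa pc F n κ ∈ J) : c = 0 := by
  classical
  -- the partial sums
  let B : ℕ → MvPolynomial σ K := fun j =>
    if hj : j < n + 1 then ∑ a, C (c (Sum.inl (⟨j, hj⟩, a))) * (F (n - j) * qa a) else 0
  obtain ⟨Z, hZ⟩ : ∃ Z : MvPolynomial σ K, Z = ∑ i, C (c (Sum.inr i)) * pc i := ⟨_, rfl⟩
  have hsum : ∑ κ, C (c κ) * fam h qa pc F n κ =
      (∑ j ∈ Finset.range (n + 1), h ^ j * B j) + h ^ (n + 1) * Z := by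
    rw [Fintype.sum_sum_type, Fintype.sum_prod_type]
    congr 1
    · rw [← Fin.sum_univ_eq_sum_range (fun j => h ^ j * B j) (n + 1)]
      refine Finset.sum_congr rfl fun j _ => ?_
      have h1 : B (j : ℕ) = ∑ a, C (c (Sum.inl (j, a))) * (F (n - j) * qa a) := by
        simp only [B, j.2, dif_pos, Fin.eta]
      rw [h1, Finset.mul_sum]
      refine Finset.sum_congr rfl fun a _ => ?_
      unfold fam
      ring
    · rw [hZ, Finset.mul_sum]
      refine Finset.sum_congr rfl fun a _ => ?_
      unfold fam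
      ring
  rw [hsum] at hc
  have key : ∀ t, t ≤ n + 1 → (∀ j, j < t → B j = 0 ∧ ∀ (hj : j < n + 1) a,
      c (Sum.inl (⟨j, hj⟩, a)) = 0) ∧
      (∑ j ∈ Finset.Ico t (n + 1), h ^ (j - t) * B j) + h ^ (n + 1 - t) * Z ∈ J := by
    intro t
    induction t with
    | zero =>
      intro _
      refine ⟨fun j hj => absurd hj (Nat.not_lt_zero _), ?_⟩
      rw [Nat.sub_zero, ← Finset.range_eq_Ico]
      simpa using hc
    | succ t ih =>
      intro ht
      obtain ⟨h1, h2⟩ := ih (by omega)
      have hlt : t < n + 1 := by omega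
      rw [Finset.sum_eq_sum_Ico_succ_bot hlt (fun j => h ^ (j - t) * B j), Nat.sub_self,
        pow_zero, one_mul] at h2
      have h3 : (∑ j ∈ Finset.Ico (t + 1) (n + 1), h ^ (j - t) * B j) + h ^ (n + 1 - t) * Z =
          h * ((∑ j ∈ Finset.Ico (t + 1) (n + 1), h ^ (j - (t + 1)) * B j) +
            h ^ (n + 1 - (t + 1)) * Z) := by
        rw [mul_add]
        congr 1
        · rw [Finset.mul_sum]
          refine Finset.sum_congr rfl fun j hj => ?_
          have h4 : t + 1 ≤ j := (Finset.mem_Ico.1 hj).1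
          have h5 : j - t = (j - (t + 1)) + 1 := by omega
          rw [h5, pow_succ]
          ring
        · have h5 : n + 1 - t = (n + 1 - (t + 1)) + 1 := by omega
          rw [h5, pow_succ]
          ring
      rw [add_assoc, h3] at h2
      have h4 : B t ∈ J ⊔ Ideal.span {h} := by
        have h5 : B t = (B t + h * ((∑ j ∈ Finset.Ico (t + 1) (n + 1), h ^ (j - (t + 1)) * B j) +
            h ^ (n + 1 - (t + 1)) * Z)) - ((∑ j ∈ Finset.Ico (t + 1) (n + 1),
            h ^ (j - (t + 1)) * B j) + h ^ (n + 1 - (t + 1)) * Z) * h := by ring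
        rw [h5]
        exact Ideal.sub_mem _ (Ideal.mem_sup_left h2)
          (Ideal.mem_sup_right (Ideal.mul_mem_left _ _ (Ideal.mem_span_singleton_self h)))
      have hBt : B t = ∑ a, C (c (Sum.inl (⟨t, hlt⟩, a))) * (F (n - t) * qa a) := by
        simp only [B, hlt, dif_pos]
      rw [hBt] at h4
      have h5 := D.ind (n - t) _ h4
      have h6 : ∀ a, c (Sum.inl (⟨t, hlt⟩, a)) = 0 := fun a => congrFun h5 a
      have h7 : B t = 0 := by
        rw [hBt]
        simp [h6]
      rw [h7, zero_add] at h2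
      refine ⟨fun j hj => ?_, (D.prime.mem_or_mem h2).resolve_left D.h_not⟩
      rcases Nat.lt_succ_iff_lt_or_eq.1 hj with h8 | rfl
      · exact h1 j h8
      · exact ⟨h7, fun _ a => h6 a⟩
  obtain ⟨h1, h2⟩ := key (n + 1) le_rfl
  rw [Finset.Ico_self, Finset.sum_empty, Nat.sub_self, pow_zero, one_mul, zero_add] at h2
  rw [hZ] at h2
  have h3 := D.pc_ind _ h2
  funext κ
  rcases κ with ⟨j, a⟩ | i
  · exact (h1 j j.2).2 j.2 a
  · exact congrFun h3 i

end

end Pool.Agent.Helper88.ZN
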