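import Pool.Agent.Helper88.ZN.Ext
import Pool.Agent.Helper29.TG.CtSum

/-!
# Heights of points in finite extensions, by absolute values of the algebraic closure
-/

set_option autoImplicit false

namespace Pool.Agent.Helper88.ZN

open Height AdmissibleAbsValues Pool.Agent.Helper29.TG

variable {K : Type} [Field K] [AdmissibleAbsValues K]

theorem ls_congr {f g : AbsoluteValue K ℝ → ℝ} (h : ∀ v, Mem v → f v = g v) : ls f = ls g := by
  unfold ls
  congr 1
  · exact congrArg _ (Multiset.map_congr rfl fun v hv => h v (Or.inl hv))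
  · exact finsum_congr fun v => h v.val (Or.inr v.2)

/-- Almost all absolute values are at most one at an algebraic element. -/
theorem W_le_one (E : Ext K) (z : AlgebraicClosure K) :
    ∃ B : Set (AbsoluteValue K ℝ), B.Finite ∧ ∀ v ∈ nonarchAbsVal (K := K), v ∉ B →
      E.W v z ≤ 1 := by
  classical
  set p := minpoly K z with hp
  have hz : IsIntegral K z := Algebra.IsIntegral.isIntegral z
  have hmon : p.Monic := minpoly.monic hz
  have hroot : Polynomial.aeval z p = 0 := minpoly.aeval K z
  have h1 : ∀ i : ℕ, ∃ B : Set (AbsoluteValue K ℝ), B.Finite ∧ ∀ v ∈ nonarchAbsVal (K := K),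
      v ∉ B → v (p.coeff i) ≤ 1 := by
    intro i
    by_cases hi : p.coeff i = 0
    · refine ⟨∅, Set.finite_empty, fun v _ _ => ?_⟩
      rw [hi, map_zero]
      exact zero_le_one
    · obtain ⟨B, hB, h⟩ := (FS_log (K := K) hi).exists_finite
      refine ⟨B, hB, fun v hv hvB => ?_⟩
      have h2 := h v hv hvB
      have h3 : 0 < v (p.coeff i) := v.pos hi
      rcases Real.log_eq_zero.1 h2 with h4 | h4 | h4
      · exact absurd h4 h3.ne'
      · exact h4.le
      · linarith
  choose B hB h using h1
  refine ⟨⋃ i ∈ Finset.range p.natDegree, B i, Set.Finite.biUnion (Finset.finite_toSet _)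
    fun i _ => hB i, fun v hv hvB => ?_⟩
  by_contra hcon
  rw [not_le] at hcon
  have hn : 0 < p.natDegree := minpoly.natDegree_pos hz
  have hsum : z ^ p.natDegree =
      - ∑ i ∈ Finset.range p.natDegree, algebraMap K (AlgebraicClosure K) (p.coeff i) * z ^ i := by
    rw [Polynomial.aeval_eq_sum_range, Finset.sum_range_succ, hmon.coeff_natDegree, one_smul] at hroot
    simp only [Algebra.smul_def] at hroot
    linear_combination hroot
  have hle : ∀ s : Finset ℕ, s ⊆ Finset.range p.natDegree →
      E.W v (∑ i ∈ s, algebraMap K (AlgebraicClosure K) (p.coeff i) * z ^ i) ≤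
        E.W v z ^ (p.natDegree - 1) := by
    intro s
    induction s using Finset.induction_on with
    | empty =>
      intro _
      rw [Finset.sum_empty, map_zero]
      positivity
    | insert i s hi ih =>
      intro hs
      rw [Finset.sum_insert hi]
      refine (E.na v hv _ _).trans (max_le ?_ (ih fun x hx => hs (Finset.mem_insert_of_mem hx)))
      have hi' : i < p.natDegree := Finset.mem_range.1 (hs (Finset.mem_insert_self i s))
      rw [map_mul, map_pow, E.ext v (Or.inr hv)]
      have h2 : v (p.coeff i) ≤ 1 := by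
        refine h i v hv fun h3 => hvB ?_
        exact Set.mem_biUnion (Finset.mem_range.2 hi') h3
      calc v (p.coeff i) * E.W v z ^ i ≤ 1 * E.W v z ^ i :=
            mul_le_mul_of_nonneg_right h2 (by positivity)
        _ = E.W v z ^ i := one_mul _
        _ ≤ _ := pow_le_pow_right₀ hcon.le (by omega)
  have h3 := hle _ (Finset.Subset.refl _)
  have h4 : E.W v (z ^ p.natDegree) ≤ E.W v z ^ (p.natDegree - 1) := by
    rw [hsum, map_neg_eq_map]
    exact h3
  rw [map_pow] at h4
  have h5 : E.W v z ^ (p.natDegree - 1) < E.W v z ^ p.natDegree :=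
    pow_lt_pow_right₀ hcon (by omega)
  linarith

theorem FS_W (E : Ext K) {z : AlgebraicClosure K} (hz : z ≠ 0) :
    FS (fun v : AbsoluteValue K ℝ => Real.log (E.W v z)) := by
  obtain ⟨B, hB, h⟩ := W_le_one E z
  obtain ⟨B', hB', h'⟩ := W_le_one E z⁻¹
  refine FS.of_finite (hB.union hB') fun v hv hvB => ?_
  have h1 := h v hv fun h2 => hvB (Or.inl h2)
  have h2 := h' v hv fun h2 => hvB (Or.inr h2)
  rw [map_inv₀] at h2
  have hpos : 0 < E.W v z := (E.W v).pos hz
  have h3 : 1 ≤ E.W v z := by
    by_contra hcon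
    rw [not_le] at hcon
    have := one_lt_inv₀ hpos |>.2 hcon
    linarith
  rw [le_antisymm h1 h3, Real.log_one]

variable {ι : Type} [Finite ι]

theorem FS_nmW (E : Ext K) {u : ι → AlgebraicClosure K} (hu : u ≠ 0) :
    FS (fun v : AbsoluteValue K ℝ => Real.log (nm (E.W v) u)) := by
  classical
  have h1 : ∀ i : ι, ∃ B : Set (AbsoluteValue K ℝ), B.Finite ∧ ∀ v ∈ nonarchAbsVal (K := K),
      v ∉ B → (u i = 0 ∨ E.W v (u i) = 1) := by
    intro i
    by_cases hi : u i = 0
    · exact ⟨∅, Set.finite_empty, fun v _ _ => Or.inl hi⟩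
    · obtain ⟨B, hB, h⟩ := (FS_W E hi).exists_finite
      refine ⟨B, hB, fun v hv hvB => Or.inr ?_⟩
      have h3 : 0 < E.W v (u i) := (E.W v).pos hi
      rcases Real.log_eq_zero.1 (h v hv hvB) with h4 | h4 | h4
      · exact absurd h4 h3.ne'
      · exact h4
      · linarith
  choose B hB h using h1
  refine FS.of_finite (Set.finite_iUnion hB) fun v hv hvB => ?_
  have h2 : ∀ i, u i = 0 ∨ E.W v (u i) = 1 := fun i =>
    h i v hv fun h3 => hvB (Set.mem_iUnion.2 ⟨i, h3⟩)
  obtain ⟨i, hi, hni⟩ := exists_nm_eq (E.W v) hu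
  rw [hni, (h2 i).resolve_left hi, Real.log_one]

variable {M : Type} [Field M] [Algebra K M] [FiniteDimensional K M]

/-- The local height of a point over `M` at an absolute value of `K`. -/
noncomputable def lh (E : Ext K) (v : AbsoluteValue K ℝ) (P : ι → M) : ℝ :=
  ∑ σ : M →ₐ[K] AlgebraicClosure K, Real.log (nm (E.W v) fun i => σ (P i))

/-- The height of a point over `M` (times the degree of `M` over `K`). -/
noncomputable def hM (E : Ext K) (P : ι → M) : ℝ := ls fun v => lh E v P

omit [AdmissibleAbsValues K] [Finite ι] [FiniteDimensional K M] in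
theorem comp_ne_zero {P : ι → M} (hP : P ≠ 0) (σ : M →ₐ[K] AlgebraicClosure K) :
    (fun i => σ (P i)) ≠ 0 := by
  intro h
  apply hP
  funext i
  exact (map_eq_zero_iff σ σ.toRingHom.injective).1 (congrFun h i)

theorem FS_lh (E : Ext K) {P : ι → M} (hP : P ≠ 0) :
    FS (fun v : AbsoluteValue K ℝ => lh E v P) :=
  FS.sum Finset.univ fun σ _ => FS_nmW E (comp_ne_zero hP σ)

omit [AdmissibleAbsValues K] in
theorem card_emb' [CharZero K] :
    (Finset.univ : Finset (M →ₐ[K] AlgebraicClosure K)).card = Module.finrank K M := by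
  rw [Finset.card_univ]
  exact AlgHom.card K M (AlgebraicClosure K)

/-- The local height of a point over `K`. -/
theorem lh_base [CharZero K] (E : Ext K) {v : AbsoluteValue K ℝ} (hv : Mem v) (y : ι → K) :
    lh E v (fun i => algebraMap K M (y i)) = Module.finrank K M * Real.log (nm v y) := by
  unfold lh
  have h1 : ∀ σ : M →ₐ[K] AlgebraicClosure K,
      Real.log (nm (E.W v) fun i => σ (algebraMap K M (y i))) = Real.log (nm v y) := by
    intro σ
    congr 1
    unfold nm
    congr 1
    funext i
    change E.W v (σ (algebraMap K M (y i))) = v (y i)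
    rw [σ.commutes, E.ext v hv]
  rw [Finset.sum_congr rfl fun σ _ => h1 σ, Finset.sum_const, nsmul_eq_mul, card_emb']

theorem FS_det (E : Ext K) {Δ : M} (hΔ : Δ ≠ 0) :
    FS (fun v : AbsoluteValue K ℝ => ∑ σ : M →ₐ[K] AlgebraicClosure K,
      Real.log (E.W v (σ Δ))) :=
  FS.sum Finset.univ fun σ _ => FS_W E ((map_ne_zero_iff σ σ.toRingHom.injective).2 hΔ)

/-- The product formula. -/
theorem ls_det [CharZero K] (E : Ext K) {Δ : M} (hΔ : Δ ≠ 0) :
    ls (fun v : AbsoluteValue K ℝ => ∑ σ : M →ₐ[K] AlgebraicClosure K,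
      Real.log (E.W v (σ Δ))) = 0 := by
  have hN : Algebra.norm K Δ ≠ 0 := Algebra.norm_ne_zero_iff.2 hΔ
  rw [← ls_log hN]
  refine ls_congr fun v hv => ?_
  rw [← E.ext v hv, Algebra.norm_eq_prod_embeddings, map_prod, Real.log_prod]
  intro σ _
  exact ((E.W v).pos ((map_ne_zero_iff σ σ.toRingHom.injective).2 hΔ)).ne'

end Pool.Agent.Helper88.ZN
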